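import Mathlib

set_option autoImplicit false
set_option linter.unusedSectionVars false

namespace Pool.Agent.H75.Apolar

open Module

/-- space of linear forms on `V`: two coordinates on the line, and `5 * k` further ones. -/
abbrev Wsp (k : ℕ) := (Fin 2 → ℂ) × (Fin 5 → Fin k → ℂ)

/-- slopes of the five points of the line -/
noncomputable def cc (i : Fin 5) : ℂ := ((i : ℕ) : ℂ)

lemma cc_inj {i j : Fin 5} (h : cc i = cc j) : i = j := by
  unfold cc at h
  exact Fin.ext (by exact_mod_cast h)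

/-- evaluation of a linear form at the `i`-th point -/
noncomputable def Lf {k : ℕ} (i : Fin 5) (w : Wsp k) : ℂ := w.1 0 + cc i * w.1 1

noncomputable def Qf {k : ℕ} (i : Fin 5) (u v : Wsp k) : ℂ := ∑ a, u.2 i a * v.2 i a

noncomputable def Ff {k : ℕ} (u v w : Wsp k) : ℂ :=
  2 * ∑ i, (Lf i u * Qf i v w + Lf i v * Qf i u w + Lf i w * Qf i u v)

noncomputable def lam {k : ℕ} (i : Fin 5) : Wsp k := (![-cc i, 1], 0)

noncomputable def io {k : ℕ} (i : Fin 5) (ν : Fin k → ℂ) : Wsp k := (0, Pi.single i ν)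

noncomputable def iota {k : ℕ} (ν : Fin 5 → Fin k → ℂ) : Wsp k := (0, ν)

noncomputable def ioL {k : ℕ} (i : Fin 5) : (Fin k → ℂ) →ₗ[ℂ] Wsp k :=
  (LinearMap.inr ℂ (Fin 2 → ℂ) (Fin 5 → Fin k → ℂ)) ∘ₗ (LinearMap.single ℂ (fun _ => Fin k → ℂ) i)

lemma ioL_apply {k : ℕ} (i : Fin 5) (ν : Fin k → ℂ) : ioL i ν = io i ν := by
  simp [ioL, io]

lemma Lf_lam {k : ℕ} (i j : Fin 5) : Lf j (lam i : Wsp k) = cc j - cc i := by
  simp [Lf, lam]; ring

lemma Lf_iota {k : ℕ} (j : Fin 5) (ν : Fin 5 → Fin k → ℂ) : Lf j (iota ν) = 0 := by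
  simp [Lf, iota]

lemma Lf_io {k : ℕ} (i j : Fin 5) (ν : Fin k → ℂ) : Lf j (io i ν) = 0 := by
  simp [Lf, io]

lemma Qf_lam {k : ℕ} (i j : Fin 5) (w : Wsp k) : Qf j (lam i : Wsp k) w = 0 := by
  simp [Qf, lam]

lemma Qf_symm {k : ℕ} (i : Fin 5) (u v : Wsp k) : Qf i u v = Qf i v u := by
  simp [Qf, mul_comm]

lemma Qf_io_ne {k : ℕ} {i j : Fin 5} (h : j ≠ i) (ν : Fin k → ℂ) (w : Wsp k) :
    Qf j (io i ν) w = 0 := by
  simp [Qf, io, h]

lemma Ff_io {k : ℕ} (i : Fin 5) (ν : Fin k → ℂ) (v w : Wsp k) :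
    Ff (io i ν) v w = 2 * (Lf i v * Qf i (io i ν) w + Lf i w * Qf i (io i ν) v) := by
  unfold Ff
  rw [Finset.sum_eq_single i]
  · rw [Lf_io]; ring
  · intro j _ hj
    rw [Lf_io, Qf_io_ne hj, Qf_io_ne hj]; ring
  · simp

lemma Ff_lam_io {k : ℕ} (i : Fin 5) (ν : Fin k → ℂ) (w : Wsp k) :
    Ff (lam i) (io i ν) w = 0 := by
  have : Ff (lam i) (io i ν) w = Ff (io i ν) (lam i) w := by
    unfold Ff
    congr 1
    refine Finset.sum_congr rfl fun j _ => ?_
    rw [Qf_symm j (lam i) (io i ν)]; ring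
  rw [this, Ff_io, Lf_lam, Qf_symm i (io i ν) (lam i), Qf_lam]; ring

section core

variable {k : ℕ} {A : Type*} [CommRing A] [Algebra ℂ A] [FiniteDimensional ℂ A]
  (φ : A →ₗ[ℂ] ℂ) (τ : Wsp k →ₗ[ℂ] A)

/-- pairing map `a ↦ (w ↦ φ (a * τ w))`. -/
noncomputable def pair : A →ₗ[ℂ] (Wsp k →ₗ[ℂ] ℂ) :=
  LinearMap.mk₂ ℂ (fun a w => φ (a * τ w))
    (by intro a b w; simp [add_mul]) (by intro c a w; simp)
    (by intro a w w'; simp [mul_add]) (by intro c a w; simp)

@[simp] lemma pair_apply (a : A) (w : Wsp k) : pair φ τ a w = φ (a * τ w) := rfl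

/-- the orthogonal of `τ W` -/
noncomputable def Eo : Submodule ℂ A := LinearMap.ker (pair φ τ)

lemma mem_Eo (a : A) : a ∈ Eo φ τ ↔ ∀ w, φ (a * τ w) = 0 := by
  unfold Eo
  rw [LinearMap.mem_ker]
  constructor
  · intro h w
    have := congrArg (fun g => g w) h
    simpa using this
  · intro h
    ext w <;> simp [h]

lemma tau_inj (hk : 0 < k) (hF : ∀ u v w, φ (τ u * τ v * τ w) = Ff u v w) :
    Function.Injective τ := by
  rw [← LinearMap.ker_eq_bot, LinearMap.ker_eq_bot']
  intro w hw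
  have h0 : ∀ u v, Ff u v w = 0 := by
    intro u v
    rw [← hF, hw]; simp
  have hfst : w.1 = 0 := by
    have key : ∀ i : Fin 5, Lf i w = 0 := by
      intro i
      have h1 := h0 (io i (Pi.single ⟨0, hk⟩ 1)) (io i (Pi.single ⟨0, hk⟩ 1))
      rw [Ff_io, Lf_io] at h1
      have h2 : Qf i (io i (Pi.single ⟨0, hk⟩ 1)) (io i (Pi.single (⟨0, hk⟩ : Fin k) 1) : Wsp k) = 1 := by
        simp [Qf, io, Pi.single_apply]
      rw [h2] at h1
      simpa using h1
    have e0 := key 0
    have e1 := key 1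
    simp only [Lf, cc] at e0 e1
    simp at e0 e1
    ext c
    fin_cases c
    · simpa using e0
    · simp only [Fin.mk_one, Fin.isValue, Pi.zero_apply]
      rw [e0] at e1
      simpa using e1
  have hsnd : w.2 = 0 := by
    ext i a
    have h1 := h0 (io i (Pi.single a 1)) ((![1, 0], 0) : Wsp k)
    rw [Ff_io] at h1
    have h2 : Lf i ((![1, 0], 0) : Wsp k) = 1 := by simp [Lf]
    have h3 : Lf i w = 0 := by simp [Lf, hfst]
    have h4 : Qf i (io i (Pi.single a 1)) w = w.2 i a := by
      simp [Qf, io, Pi.single_apply]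
    rw [h2, h3, h4] at h1
    simpa using h1
  exact Prod.ext hfst hsnd

lemma finrank_W : finrank ℂ (Wsp k) = 5 * k + 2 := by
  rw [Module.finrank_prod]
  simp [Module.finrank_pi_fintype]
  ring

lemma finrank_Eo (hφ : ∀ a, (∀ b, φ (a * b) = 0) → a = 0) (hτ : Function.Injective τ) :
    finrank ℂ (Eo φ τ) + (5 * k + 2) = finrank ℂ A := by
  have h1 := LinearMap.finrank_range_add_finrank_ker (pair φ τ)
  have h2 : Function.Surjective (pair φ τ) := by
    have h3 : Function.Injective (pair φ τ).flip := by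
      rw [← LinearMap.ker_eq_bot, LinearMap.ker_eq_bot']
      intro w hw
      apply hτ
      rw [map_zero]
      apply hφ
      intro b
      have := congrArg (fun g => g b) hw
      simp only [LinearMap.flip_apply, pair_apply, LinearMap.zero_apply] at this
      rw [mul_comm]; exact this
    have := (LinearMap.flip_surjective_iff₁ (B := (pair φ τ).flip)).2 h3
    simpa using this
  rw [LinearMap.range_eq_top.2 h2, finrank_top] at h1
  have h4 : finrank ℂ (Wsp k →ₗ[ℂ] ℂ) = 5 * k + 2 := by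
    rw [Module.finrank_linearMap]
    simp only [finrank_self, mul_one]
    exact finrank_W
  rw [h4] at h1
  unfold Eo
  omega

/-- multiplication by `a` as a linear map, its range -/
noncomputable def rg (a : A) : Submodule ℂ A := LinearMap.range (LinearMap.mulLeft ℂ a)

lemma mem_rg {a x : A} : x ∈ rg a ↔ ∃ b, a * b = x := by
  simp [rg, LinearMap.mem_range]

lemma rg_mul_le (a b : A) : rg (a * b) ≤ rg a := by
  intro x hx
  rw [mem_rg] at hx ⊢
  obtain ⟨c, rfl⟩ := hx
  exact ⟨b * c, by ring⟩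

lemma finrank_rg_io (hF : ∀ u v w, φ (τ u * τ v * τ w) = Ff u v w)
    (hτ : Function.Injective τ) (hE : finrank ℂ (Eo φ τ) ≤ 7)
    (hA : finrank ℂ A ≤ 5 * k + 2 + 7) (i : Fin 5) (ν : Fin k → ℂ) :
    finrank ℂ (rg (τ (io i ν))) ≤ 16 := by
  classical
  -- complement of the image of `τ`
  obtain ⟨C, hC⟩ := Submodule.exists_isCompl (LinearMap.range τ)
  have hCr : finrank ℂ C ≤ 7 := by
    have h1 := Submodule.finrank_add_eq_of_isCompl hC
    have h2 : finrank ℂ (LinearMap.range τ) = 5 * k + 2 := by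
      rw [LinearMap.finrank_range_of_inj hτ, finrank_W]
    omega
  -- two functionals on `W`
  let g : Wsp k →ₗ[ℂ] (Fin 2 → ℂ) :=
    { toFun := fun w => ![Lf i w, Qf i (io i ν) w]
      map_add' := by
        intro u v
        ext c
        fin_cases c
        · simp [Lf]; ring
        · simp [Qf, mul_add, Finset.sum_add_distrib]
      map_smul' := by
        intro c u
        ext d
        fin_cases d
        · simp [Lf]; ring
        · simp only [Qf, Finset.mul_sum, Fin.mk_one, Matrix.cons_val_one, Matrix.cons_val_fin_one,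
            Prod.smul_snd, Pi.smul_apply, smul_eq_mul, RingHom.id_apply]
          exact Finset.sum_congr rfl fun a _ => by ring }
  have hg : ∀ w, g w = ![Lf i w, Qf i (io i ν) w] := fun w => rfl
  obtain ⟨D, hD⟩ := Submodule.exists_isCompl (LinearMap.ker g)
  have hDr : finrank ℂ D ≤ 2 := by
    have h1 := Submodule.finrank_add_eq_of_isCompl hD
    have h2 := LinearMap.finrank_range_add_finrank_ker g
    have h3 : finrank ℂ (LinearMap.range g) ≤ 2 := by
      refine (Submodule.finrank_le _).trans ?_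
      simp
    omega
  let m := LinearMap.mulLeft ℂ (τ (io i ν))
  have hsup : rg (τ (io i ν)) ≤
      (Eo φ τ ⊔ Submodule.map (m ∘ₗ τ) D) ⊔ Submodule.map m C := by
    intro x hx
    rw [mem_rg] at hx
    obtain ⟨b, rfl⟩ := hx
    have hb : b ∈ LinearMap.range τ ⊔ C := by rw [hC.sup_eq_top]; trivial
    obtain ⟨b1, ⟨w, rfl⟩, b2, hb2, rfl⟩ := Submodule.mem_sup.1 hb
    have hw : w ∈ LinearMap.ker g ⊔ D := by rw [hD.sup_eq_top]; trivial
    obtain ⟨w1, hw1, w2, hw2, rfl⟩ := Submodule.mem_sup.1 hw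
    rw [mul_add, map_add, mul_add]
    refine Submodule.add_mem_sup (Submodule.add_mem_sup ?_ ?_) ?_
    · rw [mem_Eo]
      intro w
      rw [hF, Ff_io]
      rw [LinearMap.mem_ker, hg] at hw1
      have e0 := congrFun hw1 0
      have e1 := congrFun hw1 1
      simp only [Matrix.cons_val_zero, Matrix.cons_val_one, Pi.zero_apply,
        Matrix.cons_val_fin_one] at e0 e1
      rw [e0, e1]; ring
    · exact ⟨w2, hw2, rfl⟩
    · exact ⟨b2, hb2, rfl⟩
  calc finrank ℂ (rg (τ (io i ν)))
      ≤ finrank ℂ ((Eo φ τ ⊔ Submodule.map (m ∘ₗ τ) D) ⊔ Submodule.map m C : Submodule ℂ A) :=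
        Submodule.finrank_mono hsup
    _ ≤ finrank ℂ (Eo φ τ ⊔ Submodule.map (m ∘ₗ τ) D : Submodule ℂ A)
          + finrank ℂ (Submodule.map m C) := Submodule.finrank_add_le_finrank_add_finrank _ _
    _ ≤ (finrank ℂ (Eo φ τ) + finrank ℂ (Submodule.map (m ∘ₗ τ) D))
          + finrank ℂ (Submodule.map m C) := by
        gcongr
        exact Submodule.finrank_add_le_finrank_add_finrank _ _
    _ ≤ (7 + 2) + 7 := by
        gcongr
        · exact (Submodule.finrank_map_le _ _).trans hDr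
        · exact (Submodule.finrank_map_le _ _).trans hCr
    _ = 16 := by norm_num

/-- generators of `M_i * M` -/
def genG (i : Fin 5) : Set A := {a | ∃ (ν : Fin k → ℂ) (ν' : Fin 5 → Fin k → ℂ),
  a = τ (io i ν) * τ (iota ν')}

lemma finrank_G (hF : ∀ u v w, φ (τ u * τ v * τ w) = Ff u v w)
    (hE : finrank ℂ (Eo φ τ) ≤ 7) (i : Fin 5) :
    finrank ℂ (Submodule.span ℂ (genG τ i)) ≤ 8 := by
  classical
  let G := Submodule.span ℂ (genG τ i)
  let Li : Wsp k →ₗ[ℂ] ℂ :=
    { toFun := fun w => Lf i w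
      map_add' := by intro u v; simp [Lf]; ring
      map_smul' := by intro c u; simp [Lf]; ring }
  have hG : G.map (pair φ τ) ≤ Submodule.span ℂ {Li} := by
    rw [Submodule.map_span, Submodule.span_le]
    rintro _ ⟨a, ⟨ν, ν', rfl⟩, rfl⟩
    have : pair φ τ (τ (io i ν) * τ (iota ν')) = (2 * Qf i (io i ν) (iota ν')) • Li := by
      apply LinearMap.ext
      intro w
      rw [pair_apply, hF, Ff_io, Lf_iota]
      simp [Li]
      ring
    rw [this]
    exact Submodule.smul_mem _ _ (Submodule.subset_span rfl)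
  have h1 := LinearMap.finrank_range_add_finrank_ker ((pair φ τ).domRestrict G)
  have h2 : finrank ℂ (LinearMap.range ((pair φ τ).domRestrict G)) ≤ 1 := by
    rw [LinearMap.range_domRestrict]
    exact (Submodule.finrank_mono hG).trans (finrank_span_le_card ({Li} : Set _) |>.trans (by simp))
  have h3 : finrank ℂ (LinearMap.ker ((pair φ τ).domRestrict G)) ≤ finrank ℂ (Eo φ τ) := by
    let j : LinearMap.ker ((pair φ τ).domRestrict G) →ₗ[ℂ] Eo φ τ :=
      LinearMap.codRestrict _ (G.subtype ∘ₗ Submodule.subtype _) (by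
        rintro ⟨x, hx⟩
        rw [LinearMap.mem_ker] at hx
        exact hx)
    apply LinearMap.finrank_le_finrank_of_injective (f := j)
    intro x y hxy
    have := congrArg Subtype.val hxy
    exact Subtype.ext (Subtype.ext this)
  have : finrank ℂ G ≤ 8 := by omega
  exact this

/-- generators of the ideal `M_i * M * A` -/
def genP (i : Fin 5) : Set A := {a | ∃ (ν : Fin k → ℂ) (ν' : Fin 5 → Fin k → ℂ) (b : A),
  a = τ (io i ν) * τ (iota ν') * b}

lemma finrank_biSup_le {ι : Type*} [DecidableEq ι] (s : Finset ι) (S : ι → Submodule ℂ A) (c : ℕ)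
    (h : ∀ i ∈ s, finrank ℂ (S i) ≤ c) :
    finrank ℂ (⨆ i ∈ s, S i : Submodule ℂ A) ≤ s.card * c := by
  induction s using Finset.induction_on with
  | empty => simp
  | insert a s ha ih =>
    rw [Finset.iSup_insert, Finset.card_insert_of_notMem ha]
    refine (Submodule.finrank_add_le_finrank_add_finrank _ _).trans ?_
    have h1 := h a (Finset.mem_insert_self _ _)
    have h2 := ih (fun i hi => h i (Finset.mem_insert_of_mem hi))
    calc _ ≤ c + s.card * c := Nat.add_le_add h1 h2
      _ = (s.card + 1) * c := by ring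

lemma finrank_P (hF : ∀ u v w, φ (τ u * τ v * τ w) = Ff u v w)
    (hτ : Function.Injective τ) (hE : finrank ℂ (Eo φ τ) ≤ 7)
    (hA : finrank ℂ A ≤ 5 * k + 2 + 7) (i : Fin 5) :
    finrank ℂ (Submodule.span ℂ (genP τ i)) ≤ 128 := by
  classical
  obtain ⟨b, hb1, hb2, hb3⟩ := exists_linearIndependent ℂ (genG τ i)
  have hfin : b.Finite := hb3.setFinite
  have : Fintype b := hfin.fintype
  have hcard : b.toFinset.card ≤ 8 := by
    have := finrank_span_set_eq_card (R := ℂ) (s := b) hb3
    rw [← this, hb2]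
    exact finrank_G φ τ hF hE i
  have hle : Submodule.span ℂ (genP τ i) ≤ ⨆ g ∈ b.toFinset, rg g := by
    rw [Submodule.span_le]
    rintro _ ⟨ν, ν', c, rfl⟩
    have hmem : τ (io i ν) * τ (iota ν') ∈ Submodule.span ℂ b := by
      rw [hb2]; exact Submodule.subset_span ⟨ν, ν', rfl⟩
    have hgen : ∀ x ∈ Submodule.span ℂ b, x * c ∈ (⨆ g ∈ b.toFinset, rg g : Submodule ℂ A) := by
      intro x hx
      induction hx using Submodule.span_induction with
      | mem x hx =>
        have : x * c ∈ rg x := by rw [mem_rg]; exact ⟨c, rfl⟩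
        exact Submodule.mem_iSup_of_mem x (Submodule.mem_iSup_of_mem (by simpa using hx) this)
      | zero => simp
      | add x y _ _ hx hy => rw [add_mul]; exact Submodule.add_mem _ hx hy
      | smul r x _ hx => rw [smul_mul_assoc]; exact Submodule.smul_mem _ _ hx
    exact hgen _ hmem
  refine (Submodule.finrank_mono hle).trans ?_
  refine (finrank_biSup_le b.toFinset rg 16 ?_).trans ?_
  · intro g hg
    have hg' : g ∈ b := by simpa using hg
    obtain ⟨ν, ν', rfl⟩ := hb1 hg'
    exact (Submodule.finrank_mono (rg_mul_le _ _)).trans (finrank_rg_io φ τ hF hτ hE hA i ν)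
  · omega

/-- the kernel `K_i` -/
noncomputable def mulLam (i : Fin 5) : (Fin k → ℂ) →ₗ[ℂ] A :=
  (LinearMap.mulLeft ℂ (τ (lam i))) ∘ₗ τ ∘ₗ ioL i

lemma mulLam_apply (i : Fin 5) (ν : Fin k → ℂ) : mulLam τ i ν = τ (lam i) * τ (io i ν) := by
  simp [mulLam, ioL_apply]

lemma finrank_K (hF : ∀ u v w, φ (τ u * τ v * τ w) = Ff u v w)
    (hE : finrank ℂ (Eo φ τ) ≤ 7) (i : Fin 5) :
    k ≤ finrank ℂ (LinearMap.ker (mulLam τ i)) + 7 := by
  have h1 := LinearMap.finrank_range_add_finrank_ker (mulLam τ i)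
  have h2 : LinearMap.range (mulLam τ i) ≤ Eo φ τ := by
    rintro _ ⟨ν, rfl⟩
    rw [mulLam_apply, mem_Eo]
    intro w
    rw [hF, Ff_lam_io]
  have h3 := Submodule.finrank_mono h2
  have h4 : finrank ℂ (Fin k → ℂ) = k := by simp
  omega

/-- the ideal generated by `λ_i` and `M` -/
def cI (i : Fin 5) : Ideal A := Ideal.span ({τ (lam i)} ∪ Set.range (fun ν => τ (iota ν)))

lemma io_eq_iota (i : Fin 5) (ν : Fin k → ℂ) : (io i ν : Wsp k) = iota (Pi.single i ν) := rfl

lemma io_inj (i : Fin 5) : Function.Injective (io i : (Fin k → ℂ) → Wsp k) := by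
  intro a b h
  have := congrArg (fun w : Wsp k => w.2 i) h
  simpa [io] using this

lemma key_prop (hF : ∀ u v w, φ (τ u * τ v * τ w) = Ff u v w)
    (hτ : Function.Injective τ) (hE : finrank ℂ (Eo φ τ) ≤ 7)
    (hA : finrank ℂ A ≤ 5 * k + 2 + 7) (hk : 136 ≤ k) (i : Fin 5)
    (e : A) (he : 1 - e ∈ cI τ i) (he2 : ∀ ν, e * τ (io i ν) = 0) : False := by
  have hP := finrank_P φ τ hF hτ hE hA i
  have hK := finrank_K φ τ hF hE i
  have hmem : ∀ ν ∈ LinearMap.ker (mulLam τ i), ∀ c ∈ cI τ i,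
      τ (io i ν) * c ∈ Submodule.span ℂ (genP τ i) := by
    intro ν hν c hc
    rw [LinearMap.mem_ker, mulLam_apply] at hν
    unfold cI at hc
    induction hc using Submodule.span_induction with
    | mem x hx =>
      rcases hx with hx | ⟨ν', rfl⟩
      · rw [Set.mem_singleton_iff] at hx
        rw [hx, mul_comm, hν]; exact Submodule.zero_mem _
      · exact Submodule.subset_span ⟨ν, ν', 1, by rw [mul_one]⟩
    | zero => simp
    | add x y _ _ hx hy => rw [mul_add]; exact Submodule.add_mem _ hx hy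
    | smul r x _ hx =>
      rw [smul_eq_mul, mul_left_comm]
      -- `P` is stable under multiplication
      have hst : ∀ y ∈ Submodule.span ℂ (genP τ i), r * y ∈ Submodule.span ℂ (genP τ i) := by
        intro y hy
        induction hy using Submodule.span_induction with
        | mem y hy =>
          obtain ⟨ν1, ν2, b, rfl⟩ := hy
          exact Submodule.subset_span ⟨ν1, ν2, b * r, by ring⟩
        | zero => simp
        | add x y _ _ hx hy => rw [mul_add]; exact Submodule.add_mem _ hx hy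
        | smul c x _ hx => rw [mul_smul_comm]; exact Submodule.smul_mem _ _ hx
      exact hst _ hx
  let j : LinearMap.ker (mulLam τ i) →ₗ[ℂ] Submodule.span ℂ (genP τ i) :=
    LinearMap.codRestrict _ (τ ∘ₗ ioL i ∘ₗ Submodule.subtype _) (by
      rintro ⟨ν, hν⟩
      simp only [LinearMap.coe_comp, Submodule.coe_subtype, Function.comp_apply, ioL_apply]
      have h1 := hmem ν hν (1 - e) he
      have h2 : τ (io i ν) * (1 - e) = τ (io i ν) := by
        rw [mul_sub, mul_one, mul_comm _ e, he2, sub_zero]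
      rwa [h2] at h1)
  have hj : Function.Injective j := by
    intro x y hxy
    have h1 := congrArg Subtype.val hxy
    have h2 : τ (io i x) = τ (io i y) := by
      simpa [j, ioL_apply] using h1
    exact Subtype.ext (io_inj i (hτ h2))
  have := LinearMap.finrank_le_finrank_of_injective hj
  omega

/-- existence of the characters -/
lemma exists_char (hF : ∀ u v w, φ (τ u * τ v * τ w) = Ff u v w)
    (hτ : Function.Injective τ) (hE : finrank ℂ (Eo φ τ) ≤ 7)
    (hA : finrank ℂ A ≤ 5 * k + 2 + 7) (hk : 136 ≤ k) (w0 : Wsp k) (hw0 : τ w0 = 1)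
    (hgen : Algebra.adjoin ℂ (Set.range τ) = ⊤) (i : Fin 5) :
    Lf i w0 ≠ 0 ∧ ∃ χ : A →ₐ[ℂ] ℂ, (∀ a, χ a = 0 ↔ a ∈ cI τ i) ∧
      ∀ w, χ (τ w) = Lf i w / Lf i w0 := by
  have hne : (cI τ i) ≠ ⊤ := by
    intro htop
    exact key_prop φ τ hF hτ hE hA hk i 0 (by rw [htop]; trivial) (by simp)
  -- linear forms vanishing at the point lie in the ideal
  have hin : ∀ w : Wsp k, Lf i w = 0 → τ w ∈ cI τ i := by
    intro w hw
    have hdec : w = (w.1 1) • lam i + iota w.2 := by
      ext c
      · fin_cases c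
        · simp only [Lf] at hw
          simp [lam, iota]
          linear_combination hw
        · simp [lam, iota]
      · simp [lam, iota]
    rw [hdec, map_add, map_smul]
    refine Ideal.add_mem _ ?_ (Ideal.subset_span (Or.inr ⟨_, rfl⟩))
    rw [Algebra.smul_def]
    exact Ideal.mul_mem_left _ _ (Ideal.subset_span (Or.inl rfl))
  have hL : Lf i w0 ≠ 0 := by
    intro h
    apply hne
    rw [Ideal.eq_top_iff_one, ← hw0]
    exact hin _ h
  refine ⟨hL, ?_⟩
  -- every element is a scalar modulo the ideal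
  have hlin : ∀ w, τ w - algebraMap ℂ A (Lf i w / Lf i w0) ∈ cI τ i := by
    intro w
    have h1 : Lf i (w - (Lf i w / Lf i w0) • w0) = 0 := by
      have : Lf i (w - (Lf i w / Lf i w0) • w0) = Lf i w - (Lf i w / Lf i w0) * Lf i w0 := by
        simp [Lf]; ring
      rw [this]; field_simp; ring
    have h2 := hin _ h1
    rwa [map_sub, map_smul, hw0, Algebra.smul_def, mul_one] at h2
  have hsurj : ∀ a : A, ∃ c : ℂ, a - algebraMap ℂ A c ∈ cI τ i := by
    intro a
    have ha : a ∈ Algebra.adjoin ℂ (Set.range τ) := by rw [hgen]; trivial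
    induction ha using Algebra.adjoin_induction with
    | mem x hx => obtain ⟨w, rfl⟩ := hx; exact ⟨_, hlin w⟩
    | algebraMap r => exact ⟨r, by simp⟩
    | add x y _ _ hx hy =>
      obtain ⟨c, hc⟩ := hx
      obtain ⟨d, hd⟩ := hy
      refine ⟨c + d, ?_⟩
      have := Ideal.add_mem _ hc hd
      rw [map_add]
      convert this using 1
      ring
    | mul x y _ _ hx hy =>
      obtain ⟨c, hc⟩ := hx
      obtain ⟨d, hd⟩ := hy
      refine ⟨c * d, ?_⟩
      have h1 := Ideal.mul_mem_left _ x hd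
      have h2 := Ideal.mul_mem_left _ (algebraMap ℂ A d) hc
      have := Ideal.add_mem _ h1 h2
      rw [map_mul]
      convert this using 1
      ring
  have : Nontrivial (A ⧸ cI τ i) := Ideal.Quotient.nontrivial_iff.2 hne
  have hbij : Function.Bijective (Algebra.ofId ℂ (A ⧸ cI τ i)) := by
    constructor
    · exact (algebraMap ℂ (A ⧸ cI τ i)).injective
    · intro x
      obtain ⟨a, rfl⟩ := Ideal.Quotient.mk_surjective x
      obtain ⟨c, hc⟩ := hsurj a
      refine ⟨c, ?_⟩
      have := Ideal.Quotient.eq.2 hc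
      rw [this]
      rfl
  let E := AlgEquiv.ofBijective (Algebra.ofId ℂ (A ⧸ cI τ i)) hbij
  let χ : A →ₐ[ℂ] ℂ := (E.symm : (A ⧸ cI τ i) →ₐ[ℂ] ℂ).comp (Ideal.Quotient.mkₐ ℂ (cI τ i))
  have hχ : ∀ a, χ a = 0 ↔ a ∈ cI τ i := by
    intro a
    have : χ a = E.symm (Ideal.Quotient.mk (cI τ i) a) := rfl
    rw [this, map_eq_zero_iff E.symm E.symm.injective, Ideal.Quotient.eq_zero_iff_mem]
  refine ⟨χ, hχ, ?_⟩
  intro w
  have := (hχ _).2 (hlin w)
  rw [map_sub, AlgHom.commutes, sub_eq_zero] at this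
  exact this

theorem core_bound (hk : 136 ≤ k) (hφ : ∀ a, (∀ b, φ (a * b) = 0) → a = 0)
    (w0 : Wsp k) (hw0 : τ w0 = 1) (hgen : Algebra.adjoin ℂ (Set.range τ) = ⊤)
    (hF : ∀ u v w, φ (τ u * τ v * τ w) = Ff u v w) :
    5 * k + 10 ≤ finrank ℂ A := by
  classical
  by_contra hlt
  have hτ : Function.Injective τ := tau_inj φ τ (by omega) hF
  have hEo := finrank_Eo φ τ hφ hτ
  have hA : finrank ℂ A ≤ 5 * k + 2 + 7 := by omega
  have hE : finrank ℂ (Eo φ τ) ≤ 7 := by omega
  have hch := fun i => exists_char φ τ hF hτ hE hA hk w0 hw0 hgen i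
  choose hL χ hχ0 hχ using hch
  -- representing elements
  have hrep : ∀ g : A →ₗ[ℂ] ℂ, ∃ s : A, ∀ a, φ (s * a) = g a := by
    let B : A →ₗ[ℂ] (A →ₗ[ℂ] ℂ) := LinearMap.mk₂ ℂ (fun a b => φ (a * b))
      (by intro a b w; simp [add_mul]) (by intro c a w; simp)
      (by intro a w w'; simp [mul_add]) (by intro c a w; simp)
    have hB : ∀ a b, B a b = φ (a * b) := fun a b => rfl
    have hBi : Function.Injective B := by
      rw [← LinearMap.ker_eq_bot, LinearMap.ker_eq_bot']
      intro a ha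
      apply hφ
      intro b
      have := congrArg (fun g => g b) ha
      simpa [hB] using this
    have hBs : Function.Surjective B := by
      rw [← LinearMap.injective_iff_surjective_of_finrank_eq_finrank]
      · exact hBi
      · rw [Module.finrank_linearMap]; simp
    intro g
    obtain ⟨s, hs⟩ := hBs g
    exact ⟨s, fun a => by rw [← hB, hs]⟩
  have hs : ∀ i, ∃ s : A, ∀ a, φ (s * a) = χ i a := fun i => hrep (χ i).toLinearMap
  choose s hs using hs
  have hsmul : ∀ i a, s i * a = χ i a • s i := by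
    intro i a
    rw [← sub_eq_zero]
    apply hφ
    intro b
    rw [sub_mul, map_sub, mul_assoc, hs, smul_mul_assoc, map_smul, hs, map_mul, smul_eq_mul,
      sub_self]
  have hχio : ∀ i j ν, χ i (τ (io j ν)) = 0 := by
    intro i j ν; rw [hχ, Lf_io, zero_div]
  have hχiota : ∀ i ν, χ i (τ (iota ν)) = 0 := by
    intro i ν; rw [hχ, Lf_iota, zero_div]
  have hχlam : ∀ i j, i ≠ j → χ i (τ (lam j)) ≠ 0 := by
    intro i j hij
    rw [hχ, Lf_lam]
    refine div_ne_zero (sub_ne_zero.2 fun h => hij (cc_inj h)) (hL i)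
  have hχlam0 : ∀ i, χ i (τ (lam i)) = 0 := by
    intro i; rw [hχ, Lf_lam, sub_self, zero_div]
  -- socle elements lie in all the maximal ideals
  have hss : ∀ i, χ i (s i) = 0 := by
    intro i
    by_contra hne
    refine key_prop φ τ hF hτ hE hA hk i ((χ i (s i))⁻¹ • s i) ?_ ?_
    · rw [← hχ0, map_sub, map_one, map_smul, smul_eq_mul, inv_mul_cancel₀ hne, sub_self]
    · intro ν
      rw [smul_mul_assoc, hsmul, hχio, zero_smul, smul_zero]
  have hsj : ∀ i j, χ j (s i) = 0 := by
    intro i j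
    by_cases hij : i = j
    · rw [← hij]; exact hss i
    · have h1 := congrArg (χ j) (hsmul i (τ (lam j)))
      rw [map_mul, hχlam0, mul_zero, map_smul, smul_eq_mul] at h1
      rcases mul_eq_zero.1 h1.symm with h | h
      · exact absurd h (hχlam i j hij)
      · exact h
  -- separating elements
  let b : Fin 5 → A := fun j => ∏ l ∈ Finset.univ.erase j, τ (lam l)
  have hb0 : ∀ i j, i ≠ j → χ i (b j) = 0 := by
    intro i j hij
    simp only [b, map_prod]
    exact Finset.prod_eq_zero (Finset.mem_erase.2 ⟨hij, Finset.mem_univ _⟩) (hχlam0 i)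
  have hb1 : ∀ j, χ j (b j) ≠ 0 := by
    intro j
    simp only [b, map_prod]
    refine Finset.prod_ne_zero_iff.2 fun l hl => ?_
    exact hχlam j l (Ne.symm (Finset.ne_of_mem_erase hl))
  -- total character map
  let X : A →ₗ[ℂ] (Fin 5 → ℂ) := LinearMap.pi fun i => (χ i).toLinearMap
  have hX : ∀ a i, X a i = χ i a := fun a i => rfl
  have hXs : Function.Surjective X := by
    intro v
    refine ⟨∑ j, (v j / χ j (b j)) • b j, ?_⟩
    ext i
    rw [map_sum, Finset.sum_apply, Finset.sum_eq_single i]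
    · rw [map_smul, Pi.smul_apply, hX, smul_eq_mul, div_mul_cancel₀ _ (hb1 i)]
    · intro j _ hj
      rw [map_smul, Pi.smul_apply, hX, hb0 i j (Ne.symm hj), smul_zero]
    · simp
  have hr := LinearMap.finrank_range_add_finrank_ker X
  rw [LinearMap.range_eq_top.2 hXs, finrank_top] at hr
  have h5 : finrank ℂ (Fin 5 → ℂ) = 5 := by simp
  rw [h5] at hr
  -- big subspace of the kernel
  let Ψ0 : ((Fin 5 → Fin k → ℂ) × (Fin 5 → ℂ)) →ₗ[ℂ] A :=
    (τ ∘ₗ LinearMap.inr ℂ (Fin 2 → ℂ) (Fin 5 → Fin k → ℂ)).coprod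
      (Fintype.linearCombination ℂ s)
  have hΨ0 : ∀ ν β, Ψ0 (ν, β) = τ (iota ν) + ∑ i, β i • s i := by
    intro ν β
    simp [Ψ0, iota, Fintype.linearCombination_apply]
  have hΨk : ∀ p, Ψ0 p ∈ LinearMap.ker X := by
    rintro ⟨ν, β⟩
    rw [LinearMap.mem_ker]
    ext i
    rw [hX, hΨ0, map_add, hχiota, zero_add, map_sum, Pi.zero_apply]
    exact Finset.sum_eq_zero fun j _ => by rw [map_smul, hsj, smul_zero]
  let Ψ : ((Fin 5 → Fin k → ℂ) × (Fin 5 → ℂ)) →ₗ[ℂ] LinearMap.ker X :=
    LinearMap.codRestrict _ Ψ0 hΨk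
  have hΨi : Function.Injective Ψ := by
    rw [← LinearMap.ker_eq_bot, LinearMap.ker_eq_bot']
    rintro ⟨ν, β⟩ h
    have h0 : τ (iota ν) + ∑ i, β i • s i = 0 := by
      rw [← hΨ0]
      exact congrArg Subtype.val h
    have hν : ν = 0 := by
      ext i a
      have h1 : φ ((τ (iota ν) + ∑ i, β i • s i) * τ (io i (Pi.single a 1)) *
          τ ((![1, 0], 0) : Wsp k)) = 0 := by rw [h0]; simp
      rw [add_mul, add_mul, map_add, hF, Finset.sum_mul, Finset.sum_mul, map_sum,
        Finset.sum_eq_zero, add_zero] at h1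
      · have h2 : Ff (iota ν) (io i (Pi.single a 1)) ((![1, 0], 0) : Wsp k)
            = Ff (io i (Pi.single a 1)) (iota ν) ((![1, 0], 0) : Wsp k) := by
          unfold Ff
          congr 1
          refine Finset.sum_congr rfl fun j _ => ?_
          rw [Qf_symm j (iota ν) (io i (Pi.single a 1))]; ring
        rw [h2, Ff_io, Lf_iota] at h1
        have h3 : Lf i ((![1, 0], 0) : Wsp k) = 1 := by simp [Lf]
        have h4 : Qf i (io i (Pi.single a 1)) (iota ν) = ν i a := by
          simp [Qf, io, iota, Pi.single_apply]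
        rw [h3, h4] at h1
        simpa using h1
      · intro j _
        rw [smul_mul_assoc, smul_mul_assoc, map_smul, mul_assoc, hs, map_mul, hχio, zero_mul,
          smul_zero]
    have hβ : β = 0 := by
      rw [hν] at h0
      have h00 : (iota (0 : Fin 5 → Fin k → ℂ) : Wsp k) = 0 := rfl
      rw [h00, map_zero, zero_add] at h0
      ext j
      have h1 : φ ((∑ i, β i • s i) * b j) = 0 := by rw [h0]; simp
      rw [Finset.sum_mul, map_sum, Finset.sum_eq_single j] at h1
      · rw [smul_mul_assoc, map_smul, hs, smul_eq_mul] at h1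
        rcases mul_eq_zero.1 h1 with h | h
        · exact h
        · exact absurd h (hb1 j)
      · intro i _ hi
        rw [smul_mul_assoc, map_smul, hs, hb0 i j hi, smul_zero]
      · simp
    rw [hν, hβ]; rfl
  have hle := LinearMap.finrank_le_finrank_of_injective hΨi
  have hdom : finrank ℂ ((Fin 5 → Fin k → ℂ) × (Fin 5 → ℂ)) = 5 * k + 5 := by
    rw [Module.finrank_prod]
    simp [Module.finrank_pi_fintype]
  rw [hdom] at hle
  omega

end core

end Pool.Agent.H75.Apolar
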