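import Mathlib
import Pool.Agent.H75.ApolarCore

set_option autoImplicit false
set_option linter.unusedSectionVars false

namespace Pool.Agent.H75.Apolar

open Module MvPolynomial

variable {σ : Type} [Fintype σ] [DecidableEq σ] {k : ℕ}

instance finite_homog (t : ℕ) : Module.Finite ℂ (homogeneousSubmodule σ ℂ t) :=
  Module.Finite.iff_fg.2 (homogeneousSubmodule_fg σ ℂ t)

lemma hc_mul_succ {l : MvPolynomial σ ℂ} (hl : l.IsHomogeneous 1) (H : MvPolynomial σ ℂ) (j : ℕ) :
    homogeneousComponent (j + 1) (l * H) = l * homogeneousComponent j H := by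
  conv_lhs => rw [← sum_homogeneousComponent H, Finset.mul_sum, map_sum]
  have h1 : ∀ i, homogeneousComponent (j + 1) (l * homogeneousComponent i H)
      = if j = i then l * homogeneousComponent i H else 0 := by
    intro i
    have : l * homogeneousComponent i H ∈ homogeneousSubmodule σ ℂ (i + 1) := by
      rw [mem_homogeneousSubmodule, add_comm]
      exact hl.mul (homogeneousComponent_isHomogeneous _ _)
    rw [homogeneousComponent_of_mem this]
    simp
  simp only [h1]
  rw [Finset.sum_ite_eq]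
  split_ifs with h
  · rfl
  · rw [homogeneousComponent_eq_zero, mul_zero]
    simpa using h

lemma hc_mul_zero {l : MvPolynomial σ ℂ} (hl : l.IsHomogeneous 1) (H : MvPolynomial σ ℂ) :
    homogeneousComponent 0 (l * H) = 0 := by
  conv_lhs => rw [← sum_homogeneousComponent H, Finset.mul_sum, map_sum]
  refine Finset.sum_eq_zero fun i _ => ?_
  have : l * homogeneousComponent i H ∈ homogeneousSubmodule σ ℂ (i + 1) := by
    rw [mem_homogeneousSubmodule, add_comm]
    exact hl.mul (homogeneousComponent_isHomogeneous _ _)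
  rw [homogeneousComponent_of_mem this]
  simp

/-- a saturated homogeneous ideal -/
structure Sat (J : Ideal (MvPolynomial σ ℂ)) : Prop where
  hom : ∀ g ∈ J, ∀ t : ℕ, homogeneousComponent t g ∈ J
  sat : ∀ g : MvPolynomial σ ℂ, (∃ N : ℕ, ∀ i : σ, X i ^ N * g ∈ J) → g ∈ J

/-- a linear form which is not a zero divisor modulo a saturated ideal -/
lemma exists_nzd (J : Ideal (MvPolynomial σ ℂ)) (hJ : Sat J) (τ0 : Wsp k →ₗ[ℂ] MvPolynomial σ ℂ)
    (hX : ∀ s, ∃ w, τ0 w = X s) : ∃ w0, ∀ g, τ0 w0 * g ∈ J → g ∈ J := by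
  classical
  let M := MvPolynomial σ ℂ ⧸ J
  have hfin := associatedPrimes.finite (MvPolynomial σ ℂ) M
  let S : Finset (Subspace ℂ (Wsp k)) :=
    hfin.toFinset.image (fun p => Submodule.comap τ0 (p.restrictScalars ℂ))
  have htop : ⊤ ∉ S := by
    intro h
    obtain ⟨p, hp, hpt⟩ := Finset.mem_image.1 h
    rw [Set.Finite.mem_toFinset] at hp
    have hp' : IsAssociatedPrime p M := hp
    rw [isAssociatedPrime_iff] at hp'
    obtain ⟨hpr, x, hx⟩ := hp'
    obtain ⟨g, rfl⟩ := Ideal.Quotient.mk_surjective x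
    have hXp : ∀ s, (X s : MvPolynomial σ ℂ) ∈ p := by
      intro s
      obtain ⟨w, hw⟩ := hX s
      have : w ∈ Submodule.comap τ0 (p.restrictScalars ℂ) := by rw [hpt]; trivial
      rw [Submodule.mem_comap, hw] at this
      exact this
    have hmem : ∀ r, r ∈ p ↔ r * g ∈ J := by
      intro r
      rw [hx, Submodule.mem_colon_singleton, Submodule.mem_bot]
      change Ideal.Quotient.mk J (r * g) = 0 ↔ _
      rw [Ideal.Quotient.eq_zero_iff_mem]
    have hg : g ∈ J := by
      apply hJ.sat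
      refine ⟨1, fun i => ?_⟩
      rw [pow_one, ← hmem]
      exact hXp i
    apply hpr.ne_top
    rw [Ideal.eq_top_iff_one, hmem, one_mul]
    exact hg
  have hne := Subspace.biUnion_ne_univ_of_top_notMem htop
  obtain ⟨w0, hw0⟩ := (Set.ne_univ_iff_exists_notMem _).1 hne
  refine ⟨w0, fun g hg => ?_⟩
  by_contra hgJ
  apply hw0
  have hz : τ0 w0 ∈ {r : MvPolynomial σ ℂ | ∃ x : M, x ≠ 0 ∧ r • x = 0} := by
    refine ⟨Ideal.Quotient.mk J g, ?_, ?_⟩
    · rwa [Ne, Ideal.Quotient.eq_zero_iff_mem]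
    · change Ideal.Quotient.mk J (τ0 w0 * g) = 0
      rw [Ideal.Quotient.eq_zero_iff_mem]
      exact hg
  rw [← biUnion_associatedPrimes_eq_zero_divisors] at hz
  simp only [Set.mem_iUnion] at hz ⊢
  obtain ⟨p, hp, hpm⟩ := hz
  refine ⟨Submodule.comap τ0 (p.restrictScalars ℂ), ?_, hpm⟩
  exact Finset.mem_image.2 ⟨p, by rwa [Set.Finite.mem_toFinset], rfl⟩

section reduction

variable (J : Ideal (MvPolynomial σ ℂ)) (hJ : Sat J) (l : MvPolynomial σ ℂ)
  (hl : l.IsHomogeneous 1) (hnz : ∀ g, l * g ∈ J → g ∈ J)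

include hJ hl hnz in
/-- the homogeneous part of degree `d` of `J + (l - 1)` lies in `J` -/
lemma homog_mem (d : ℕ) (F : MvPolynomial σ ℂ) (hF : F.IsHomogeneous d)
    (hmem : F ∈ J ⊔ Ideal.span {l - 1}) : F ∈ J := by
  obtain ⟨G, hG, K, hK, hsum⟩ := Submodule.mem_sup.1 hmem
  obtain ⟨H, rfl⟩ := Ideal.mem_span_singleton'.1 hK
  have heq : H = G + l * H - F := by rw [← hsum]; ring
  have h0 : ∀ j, homogeneousComponent j F = if j = d then F else 0 := fun j =>
    homogeneousComponent_of_mem hF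
  have hstep : ∀ j, homogeneousComponent (j + 1) H
      = homogeneousComponent (j + 1) G + l * homogeneousComponent j H
        - homogeneousComponent (j + 1) F := by
    intro j
    conv_lhs => rw [heq]
    rw [map_sub, map_add, hc_mul_succ hl]
  have hzero : homogeneousComponent 0 H = homogeneousComponent 0 G
      - homogeneousComponent 0 F := by
    conv_lhs => rw [heq]
    rw [map_sub, map_add, hc_mul_zero hl, add_zero]
  -- below degree d
  have hlow : ∀ j, j < d → homogeneousComponent j H ∈ J := by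
    intro j
    induction j with
    | zero =>
      intro h
      rw [hzero, h0, if_neg (by omega), sub_zero]
      exact hJ.hom _ hG _
    | succ j ih =>
      intro h
      rw [hstep, h0, if_neg (by omega), sub_zero]
      exact Ideal.add_mem _ (hJ.hom _ hG _) (Ideal.mul_mem_left _ _ (ih (by omega)))
  have hd : homogeneousComponent d H + F ∈ J := by
    cases d with
    | zero =>
      rw [hzero, h0, if_pos rfl, sub_add_cancel]
      exact hJ.hom _ hG _
    | succ j =>
      rw [hstep, h0, if_pos rfl, sub_add_cancel]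
      exact Ideal.add_mem _ (hJ.hom _ hG _) (Ideal.mul_mem_left _ _ (hlow j (by omega)))
  have hhigh : ∀ m, homogeneousComponent (d + m) H + l ^ m * F ∈ J := by
    intro m
    induction m with
    | zero => simpa using hd
    | succ m ih =>
      have : homogeneousComponent (d + (m + 1)) H + l ^ (m + 1) * F
          = homogeneousComponent (d + m + 1) G + l * (homogeneousComponent (d + m) H + l ^ m * F)
            := by
        rw [← add_assoc, hstep, h0, if_neg (by omega), sub_zero]
        ring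
      rw [this]
      exact Ideal.add_mem _ (hJ.hom _ hG _) (Ideal.mul_mem_left _ _ ih)
  have hbig := hhigh (H.totalDegree + 1)
  rw [homogeneousComponent_eq_zero _ _ (by omega), zero_add] at hbig
  -- cancel the powers of l
  have hcancel : ∀ m, l ^ m * F ∈ J → F ∈ J := by
    intro m
    induction m with
    | zero => intro h; simpa using h
    | succ m ih =>
      intro h
      apply ih
      apply hnz
      rwa [pow_succ', mul_assoc] at h
  exact hcancel _ hbig

include hJ hl hnz in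
/-- functional -/
lemma exists_functional (d : ℕ) (p : MvPolynomial σ ℂ →ₗ[ℂ] ℂ) (hp : ∀ g ∈ J, p g = 0) :
    ∃ Φ : MvPolynomial σ ℂ →ₗ[ℂ] ℂ, (∀ g ∈ J ⊔ Ideal.span {l - 1}, Φ g = 0) ∧
      ∀ F, F.IsHomogeneous d → Φ F = p F := by
  let N : Submodule ℂ (MvPolynomial σ ℂ) := (J ⊔ Ideal.span {l - 1}).restrictScalars ℂ
  let g : homogeneousSubmodule σ ℂ d →ₗ[ℂ] (MvPolynomial σ ℂ ⧸ N) :=
    N.mkQ ∘ₗ (homogeneousSubmodule σ ℂ d).subtype
  have h1 : p ∘ₗ (homogeneousSubmodule σ ℂ d).subtype ∈ LinearMap.range g.dualMap := by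
    rw [LinearMap.range_dualMap_eq_dualAnnihilator_ker, Submodule.mem_dualAnnihilator]
    rintro ⟨F, hF⟩ hFk
    have h2 : N.mkQ F = 0 := hFk
    rw [Submodule.mkQ_apply, Submodule.Quotient.mk_eq_zero] at h2
    exact hp F (homog_mem J hJ l hl hnz d F hF h2)
  obtain ⟨ψ, hψ⟩ := h1
  refine ⟨ψ ∘ₗ N.mkQ, ?_, ?_⟩
  · intro x hx
    have : N.mkQ x = 0 := by
      rw [Submodule.mkQ_apply, Submodule.Quotient.mk_eq_zero]; exact hx
    rw [LinearMap.comp_apply, this, map_zero]
  · intro F hF
    have := congrArg (fun q => q ⟨F, hF⟩) hψ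
    exact this

/-- radical ideal of a functional -/
def radI (Φ : MvPolynomial σ ℂ →ₗ[ℂ] ℂ) : Ideal (MvPolynomial σ ℂ) where
  carrier := {F | ∀ G, Φ (F * G) = 0}
  add_mem' := by
    intro a b ha hb G
    rw [add_mul, map_add, ha, hb, add_zero]
  zero_mem' := by intro G; simp
  smul_mem' := by
    intro c x hx G
    rw [smul_eq_mul, mul_assoc, mul_left_comm]
    exact hx _

lemma mem_radI (Φ : MvPolynomial σ ℂ →ₗ[ℂ] ℂ) (F : MvPolynomial σ ℂ) :
    F ∈ radI Φ ↔ ∀ G, Φ (F * G) = 0 := Iff.rfl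

lemma finrank_comap (t : ℕ) (N : Submodule ℂ (MvPolynomial σ ℂ)) :
    finrank ℂ (Submodule.comap (homogeneousSubmodule σ ℂ t).subtype N)
      = finrank ℂ (N ⊓ homogeneousSubmodule σ ℂ t : Submodule ℂ (MvPolynomial σ ℂ)) := by
  rw [inf_comm, ← Submodule.map_comap_subtype]
  exact (LinearEquiv.finrank_eq (Submodule.equivSubtypeMap _ _))

include hnz in
lemma surj_step (t r' : ℕ)
    (h1 : finrank ℂ (homogeneousSubmodule σ ℂ t) -
      finrank ℂ (J.restrictScalars ℂ ⊓ homogeneousSubmodule σ ℂ t :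
        Submodule ℂ (MvPolynomial σ ℂ)) = r')
    (h2 : finrank ℂ (homogeneousSubmodule σ ℂ (t + 1)) -
      finrank ℂ (J.restrictScalars ℂ ⊓ homogeneousSubmodule σ ℂ (t + 1) :
        Submodule ℂ (MvPolynomial σ ℂ)) = r') (hl : l.IsHomogeneous 1)
    (F : MvPolynomial σ ℂ) (hF : F.IsHomogeneous (t + 1)) :
    ∃ F' : MvPolynomial σ ℂ, F'.IsHomogeneous t ∧ F - l * F' ∈ J := by
  classical
  let S := homogeneousSubmodule σ ℂ t
  let S' := homogeneousSubmodule σ ℂ (t + 1)
  let N' := Submodule.comap S'.subtype (J.restrictScalars ℂ)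
  let m : S →ₗ[ℂ] S' := LinearMap.codRestrict S' ((LinearMap.mulLeft ℂ l) ∘ₗ S.subtype) (by
    rintro ⟨x, hx⟩
    have : (l * x).IsHomogeneous (1 + t) := hl.mul hx
    rw [add_comm] at this
    exact this)
  have hm : ∀ x : S, ((m x : S') : MvPolynomial σ ℂ) = l * x := fun x => rfl
  let g : S →ₗ[ℂ] (S' ⧸ N') := N'.mkQ ∘ₗ m
  have hker : LinearMap.ker g = Submodule.comap S.subtype (J.restrictScalars ℂ) := by
    ext x
    rw [LinearMap.mem_ker]
    simp only [g, LinearMap.comp_apply, Submodule.mkQ_apply, Submodule.Quotient.mk_eq_zero]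
    change l * (x : MvPolynomial σ ℂ) ∈ J ↔ (x : MvPolynomial σ ℂ) ∈ J
    exact ⟨fun h => hnz _ h, fun h => Ideal.mul_mem_left _ _ h⟩
  have hr := LinearMap.finrank_range_add_finrank_ker g
  rw [hker, finrank_comap] at hr
  have hq := Submodule.finrank_quotient_add_finrank N'
  rw [finrank_comap] at hq
  have hle : finrank ℂ (J.restrictScalars ℂ ⊓ homogeneousSubmodule σ ℂ t :
        Submodule ℂ (MvPolynomial σ ℂ)) ≤ finrank ℂ (homogeneousSubmodule σ ℂ t) :=
    Submodule.finrank_mono inf_le_right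
  have hsur : LinearMap.range g = ⊤ := by
    apply Submodule.eq_top_of_finrank_eq
    change finrank ℂ (LinearMap.range g) + finrank ℂ (J.restrictScalars ℂ ⊓
      homogeneousSubmodule σ ℂ t : Submodule ℂ (MvPolynomial σ ℂ))
      = finrank ℂ (homogeneousSubmodule σ ℂ t) at hr
    change finrank ℂ (S' ⧸ N') + finrank ℂ (J.restrictScalars ℂ ⊓
      homogeneousSubmodule σ ℂ (t + 1) : Submodule ℂ (MvPolynomial σ ℂ))
      = finrank ℂ (homogeneousSubmodule σ ℂ (t + 1)) at hq
    omega
  obtain ⟨x, hx⟩ := (LinearMap.range_eq_top.1 hsur) (N'.mkQ ⟨F, hF⟩)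
  refine ⟨x, x.2, ?_⟩
  have h3 : N'.mkQ (⟨F, hF⟩ - m x) = 0 := by
    rw [map_sub, ← hx]; simp [g]
  rw [Submodule.mkQ_apply, Submodule.Quotient.mk_eq_zero] at h3
  exact h3

end reduction

theorem lower_J (hk : 136 ≤ k) (J : Ideal (MvPolynomial σ ℂ)) (hJ : Sat J)
    (p : MvPolynomial σ ℂ →ₗ[ℂ] ℂ) (hp : ∀ g ∈ J, p g = 0)
    (τ0 : Wsp k →ₗ[ℂ] MvPolynomial σ ℂ) (hX : ∀ s, ∃ w, τ0 w = X s)
    (hlin : ∀ w, (τ0 w).IsHomogeneous 1)
    (hpF : ∀ u v w, p (τ0 u * τ0 v * τ0 w) = Ff u v w)
    (r' t0 : ℕ) (ht : ∀ t ≥ t0, finrank ℂ (homogeneousSubmodule σ ℂ t) -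
      finrank ℂ (J.restrictScalars ℂ ⊓ homogeneousSubmodule σ ℂ t :
        Submodule ℂ (MvPolynomial σ ℂ)) = r') : 5 * k + 10 ≤ r' := by
  classical
  obtain ⟨w0, hnz⟩ := exists_nzd J hJ τ0 hX
  set l := τ0 w0 with hldef
  have hl : l.IsHomogeneous 1 := hlin w0
  obtain ⟨Φ, hΦ1, hΦ2⟩ := exists_functional J hJ l hl hnz 3 p hp
  have hJle : J ≤ radI Φ := by
    intro F hF G
    exact hΦ1 _ (Ideal.mem_sup_left (Ideal.mul_mem_right _ _ hF))
  have hlmem : l - 1 ∈ radI Φ := by
    intro G
    exact hΦ1 _ (Ideal.mem_sup_right (Ideal.mul_mem_right _ _ (Ideal.mem_span_singleton_self _)))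
  let A := MvPolynomial σ ℂ ⧸ radI Φ
  let q : MvPolynomial σ ℂ →ₗ[ℂ] A := (Ideal.Quotient.mkₐ ℂ (radI Φ)).toLinearMap
  have hq : ∀ F, q F = Ideal.Quotient.mk (radI Φ) F := fun F => rfl
  have hql : ∀ F, q (l * F) = q F := by
    intro F
    rw [← sub_eq_zero, ← map_sub, hq, Ideal.Quotient.eq_zero_iff_mem]
    have : l * F - F = (l - 1) * F := by ring
    rw [this]
    exact Ideal.mul_mem_right _ _ hlmem
  have hqlp : ∀ m F, q (l ^ m * F) = q F := by
    intro m F
    induction m with
    | zero => simp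
    | succ m ih => rw [pow_succ', mul_assoc, hql, ih]
  let S := homogeneousSubmodule σ ℂ t0
  -- every homogeneous element is congruent to one of degree t0
  have hsur : ∀ j, ∀ F : MvPolynomial σ ℂ, F.IsHomogeneous j → q F ∈ S.map q := by
    intro j
    by_cases hj : j ≤ t0
    · intro F hF
      refine ⟨l ^ (t0 - j) * F, ?_, hqlp _ _⟩
      have h1 := (hl.pow (t0 - j)).mul hF
      rw [one_mul, Nat.sub_add_cancel hj] at h1
      exact h1
    · have hj' : t0 ≤ j := by omega
      induction j, hj' using Nat.le_induction with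
      | base => exact absurd le_rfl hj
      | succ j hj' ih =>
        intro F hF
        obtain ⟨F', hF', hd⟩ := surj_step J l hnz j r' (ht j hj') (ht (j + 1) (by omega)) hl F hF
        have h2 : q F = q F' := by
          rw [← hql F', ← sub_eq_zero, ← map_sub, hq, Ideal.Quotient.eq_zero_iff_mem]
          exact hJle hd
        rw [h2]
        by_cases hjt : j ≤ t0
        · have : j = t0 := le_antisymm hjt hj'
          subst this
          exact ⟨F', hF', rfl⟩
        · exact ih hjt F' hF'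
  have hqs : (S.map q) = ⊤ := by
    rw [eq_top_iff]
    intro x _
    obtain ⟨F, rfl⟩ := Ideal.Quotient.mk_surjective x
    rw [← hq, ← sum_homogeneousComponent F, map_sum]
    exact Submodule.sum_mem _ fun i _ => hsur i _ (homogeneousComponent_isHomogeneous _ _)
  let qS : S →ₗ[ℂ] A := q ∘ₗ S.subtype
  have hqSs : Function.Surjective qS := by
    rw [← LinearMap.range_eq_top, LinearMap.range_comp, Submodule.range_subtype]
    exact hqs
  have hfd : FiniteDimensional ℂ A := Module.Finite.of_surjective qS hqSs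
  have hrank : finrank ℂ A ≤ r' := by
    have h1 := LinearMap.finrank_range_add_finrank_ker qS
    rw [LinearMap.range_eq_top.2 hqSs, finrank_top] at h1
    have h2 : Submodule.comap S.subtype (J.restrictScalars ℂ) ≤ LinearMap.ker qS := by
      intro x hx
      rw [LinearMap.mem_ker]
      change q x = 0
      rw [hq, Ideal.Quotient.eq_zero_iff_mem]
      exact hJle hx
    have h3 := Submodule.finrank_mono h2
    rw [finrank_comap] at h3
    have h4 := ht t0 le_rfl
    change finrank ℂ A + finrank ℂ (LinearMap.ker qS)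
      = finrank ℂ (homogeneousSubmodule σ ℂ t0) at h1
    omega
  -- the functional on A
  obtain ⟨φ, hφ⟩ : ∃ φ : A →ₗ[ℂ] ℂ, ∀ F, φ (q F) = Φ F := by
    have hk : (LinearMap.ker q) ≤ LinearMap.ker Φ := by
      intro F hF
      rw [LinearMap.mem_ker, hq, Ideal.Quotient.eq_zero_iff_mem] at hF
      have := hF 1
      rwa [mul_one] at this
    have hqsurj : Function.Surjective q := Ideal.Quotient.mk_surjective
    refine ⟨(Submodule.liftQ _ Φ hk) ∘ₗ (q.quotKerEquivOfSurjective hqsurj).symm.toLinearMap, ?_⟩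
    intro F
    have : (q.quotKerEquivOfSurjective hqsurj).symm (q F) = Submodule.Quotient.mk F := by
      rw [LinearEquiv.symm_apply_eq]
      rfl
    rw [LinearMap.comp_apply, LinearEquiv.coe_coe, this, Submodule.liftQ_apply]
  refine le_trans ?_ hrank
  let τ : Wsp k →ₗ[ℂ] A := q ∘ₗ τ0
  refine core_bound φ τ hk ?_ w0 ?_ ?_ ?_
  · intro a ha
    obtain ⟨F, rfl⟩ := Ideal.Quotient.mk_surjective a
    rw [Ideal.Quotient.eq_zero_iff_mem, mem_radI]
    intro G
    have := ha (q G)
    rw [hq, ← map_mul, ← hq, hφ] at this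
    exact this
  · change q l = 1
    have := hql 1
    rw [mul_one] at this
    rw [this, hq, map_one]
  · rw [eq_top_iff]
    rintro x -
    obtain ⟨F, rfl⟩ := Ideal.Quotient.mk_surjective x
    have h1 : F ∈ Algebra.adjoin ℂ (Set.range (X : σ → MvPolynomial σ ℂ)) := by
      rw [adjoin_range_X]; trivial
    have h2 : Algebra.adjoin ℂ (Set.range (X : σ → MvPolynomial σ ℂ)) ≤
        (Algebra.adjoin ℂ (Set.range τ)).comap (Ideal.Quotient.mkₐ ℂ (radI Φ)) := by
      rw [Algebra.adjoin_le_iff]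
      rintro _ ⟨s, rfl⟩
      obtain ⟨w, hw⟩ := hX s
      apply Algebra.subset_adjoin
      exact ⟨w, by rw [← hw]; rfl⟩
    exact h2 h1
  · intro u v w
    have h1 : τ u * τ v * τ w = q (τ0 u * τ0 v * τ0 w) := by
      rw [hq, map_mul, map_mul]; rfl
    rw [h1, hφ, hΦ2, hpF]
    have := ((hlin u).mul (hlin v)).mul (hlin w)
    exact this

end Pool.Agent.H75.Apolar
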