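import Mathlib
import Pool.Agent.H75.ApolarLower

set_option autoImplicit false
set_option linter.unusedSectionVars false

namespace Pool.Agent.H75.Apolar

open Module MvPolynomial

variable {σ : Type} [Fintype σ] [DecidableEq σ] {k : ℕ} (e : Fin 2 ⊕ (Fin 5 × Fin k) ≃ σ)

/-- the variable on the line -/
def xi (c : Fin 2) : σ := e (Sum.inl c)

/-- the other variables -/
def mi (i : Fin 5) (a : Fin k) : σ := e (Sum.inr (i, a))

lemma xi_ne_mi (c : Fin 2) (i : Fin 5) (a : Fin k) : xi e c ≠ mi e i a := by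
  intro h
  have := e.injective h
  simp at this

lemma mi_eq_iff (i j : Fin 5) (a b : Fin k) : mi e i a = mi e j b ↔ i = j ∧ a = b := by
  unfold mi
  rw [e.injective.eq_iff]
  simp

lemma xi_inj {c d : Fin 2} (h : xi e c = xi e d) : c = d := by
  have := e.injective h
  simpa using this

/-- the linear forms -/
noncomputable def tau0 : Wsp k →ₗ[ℂ] MvPolynomial σ ℂ where
  toFun w := ∑ c, C (w.1 c) * X (xi e c) + ∑ i, ∑ a, C (w.2 i a) * X (mi e i a)
  map_add' u v := by
    simp only [Prod.fst_add, Pi.add_apply, Prod.snd_add, C_add, add_mul, Finset.sum_add_distrib]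
    ring
  map_smul' r u := by
    simp only [Prod.smul_fst, Pi.smul_apply, Prod.smul_snd, smul_eq_mul, C_mul, mul_assoc,
      RingHom.id_apply, smul_add, Finset.smul_sum, smul_eq_C_mul]

lemma tau0_apply (w : Wsp k) :
    tau0 e w = ∑ c, C (w.1 c) * X (xi e c) + ∑ i, ∑ a, C (w.2 i a) * X (mi e i a) := rfl

lemma tau0_surj (s : σ) : ∃ w : Wsp k, tau0 e w = X s := by
  obtain ⟨t, rfl⟩ := e.surjective s
  rcases t with c | ⟨i, a⟩
  · refine ⟨(Pi.single c 1, 0), ?_⟩
    rw [tau0_apply, Finset.sum_eq_single c]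
    · simp [xi]
    · intro d _ hd; simp [hd]
    · simp
  · refine ⟨(0, Pi.single i (Pi.single a 1)), ?_⟩
    rw [tau0_apply, Finset.sum_eq_single (s := Finset.univ) (a := i)]
    · rw [Finset.sum_eq_single (s := Finset.univ) (a := a)]
      · simp [mi]
      · intro b _ hb; simp [hb]
      · simp
    · intro j _ hj; simp [hj]
    · simp

lemma tau0_hom (w : Wsp k) : (tau0 e w).IsHomogeneous 1 := by
  rw [tau0_apply]
  refine IsHomogeneous.add (IsHomogeneous.sum _ _ _ fun c _ => isHomogeneous_C_mul_X _ _)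
    (IsHomogeneous.sum _ _ _ fun i _ => IsHomogeneous.sum _ _ _ fun a _ => isHomogeneous_C_mul_X _ _)

lemma pderiv_tau0 (w : Wsp k) (i : Fin 5) (a : Fin k) :
    pderiv (mi e i a) (tau0 e w) = C (w.2 i a) := by
  rw [tau0_apply, map_add, map_sum, map_sum]
  have h1 : ∀ c : Fin 2, pderiv (mi e i a) (C (w.1 c) * X (xi e c)) = 0 := by
    intro c
    rw [Derivation.leibniz, pderiv_C, pderiv_X_of_ne (xi_ne_mi e c i a)]
    simp
  rw [Finset.sum_eq_zero fun c _ => h1 c, zero_add]
  rw [Finset.sum_eq_single i]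
  · rw [map_sum, Finset.sum_eq_single a]
    · rw [Derivation.leibniz, pderiv_C, pderiv_X_self]; simp
    · intro b _ hb
      rw [Derivation.leibniz, pderiv_C, pderiv_X_of_ne]
      · simp
      · rw [Ne, mi_eq_iff]; exact fun h => hb h.2
    · simp
  · intro j _ hj
    rw [map_sum]
    refine Finset.sum_eq_zero fun b _ => ?_
    rw [Derivation.leibniz, pderiv_C, pderiv_X_of_ne]
    · simp
    · rw [Ne, mi_eq_iff]; exact fun h => hj h.1
  · simp

/-- the five points -/
noncomputable def pt (i : Fin 5) (s : σ) : ℂ := Sum.elim ![1, cc i] (fun _ => 0) (e.symm s)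

@[simp] lemma pt_x (i : Fin 5) : pt e i (xi e 0) = 1 := by simp [pt, xi]
@[simp] lemma pt_y (i : Fin 5) : pt e i (xi e 1) = cc i := by simp [pt, xi]
@[simp] lemma pt_m (i j : Fin 5) (a : Fin k) : pt e i (mi e j a) = 0 := by simp [pt, mi]

/-- restriction to the line through the `i`-th point -/
noncomputable def rho (i : Fin 5) : MvPolynomial σ ℂ →ₐ[ℂ] Polynomial ℂ :=
  aeval (fun s => Polynomial.C (pt e i s) * Polynomial.X)

lemma rho_tau0 (i : Fin 5) (w : Wsp k) :
    rho e i (tau0 e w) = Polynomial.C (Lf i w) * Polynomial.X := by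
  rw [tau0_apply]
  simp [rho, Lf, Fin.sum_univ_two]
  ring

/-- Laplacian in the `i`-th block -/
noncomputable def lap (i : Fin 5) : MvPolynomial σ ℂ →ₗ[ℂ] MvPolynomial σ ℂ :=
  ∑ a, (pderiv (mi e i a)).toLinearMap ∘ₗ (pderiv (mi e i a)).toLinearMap

lemma lap_apply (i : Fin 5) (F : MvPolynomial σ ℂ) :
    lap e i F = ∑ a, pderiv (mi e i a) (pderiv (mi e i a) F) := by
  simp [lap]

/-- the functional -/
noncomputable def pf : MvPolynomial σ ℂ →ₗ[ℂ] ℂ :=
  ∑ i, (Polynomial.lcoeff ℂ 1) ∘ₗ (rho e i).toLinearMap ∘ₗ lap e i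

lemma pf_apply (F : MvPolynomial σ ℂ) : pf e F = ∑ i, (rho e i (lap e i F)).coeff 1 := by
  simp [pf]

lemma pf_tri (u v w : Wsp k) : pf e (tau0 e u * tau0 e v * tau0 e w) = Ff u v w := by
  rw [pf_apply, Ff, Finset.mul_sum]
  refine Finset.sum_congr rfl fun i _ => ?_
  have h1 : ∀ a, pderiv (mi e i a) (pderiv (mi e i a) (tau0 e u * tau0 e v * tau0 e w))
      = 2 * (C (u.2 i a * v.2 i a) * tau0 e w + C (u.2 i a * w.2 i a) * tau0 e v
        + C (v.2 i a * w.2 i a) * tau0 e u) := by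
    intro a
    simp only [Derivation.leibniz, pderiv_tau0, smul_eq_mul, map_add, pderiv_C, C_mul]
    ring
  rw [lap_apply]
  simp only [h1]
  rw [← Finset.mul_sum, Finset.sum_add_distrib, Finset.sum_add_distrib, ← Finset.sum_mul,
    ← Finset.sum_mul, ← Finset.sum_mul, ← map_sum, ← map_sum, ← map_sum]
  change _ = 2 * (Lf i u * Qf i v w + Lf i v * Qf i u w + Lf i w * Qf i u v)
  rw [map_mul, map_add, map_add, map_mul, map_mul, map_mul, rho_tau0, rho_tau0, rho_tau0]
  have h2 : ∀ c : ℂ, rho e i (C c) = Polynomial.C c := by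
    intro c; simp [rho]
  rw [h2, h2, h2]
  have h3 : rho e i 2 = Polynomial.C 2 := by
    have : (2 : MvPolynomial σ ℂ) = C 2 := (map_ofNat C 2).symm
    rw [this, h2]
  rw [h3]
  have h4 : Polynomial.C 2 * (Polynomial.C (∑ a, u.2 i a * v.2 i a) *
      (Polynomial.C (Lf i w) * Polynomial.X) + Polynomial.C (∑ a, u.2 i a * w.2 i a) *
      (Polynomial.C (Lf i v) * Polynomial.X) + Polynomial.C (∑ a, v.2 i a * w.2 i a) *
      (Polynomial.C (Lf i u) * Polynomial.X))
      = Polynomial.C (2 * ((∑ a, u.2 i a * v.2 i a) * Lf i w + (∑ a, u.2 i a * w.2 i a) * Lf i v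
        + (∑ a, v.2 i a * w.2 i a) * Lf i u)) * Polynomial.X := by
    simp only [map_mul, map_add]
    ring
  rw [h4, Polynomial.coeff_C_mul, Polynomial.coeff_X_one, mul_one]
  simp only [Qf]
  ring

/-- value of `rho` on a homogeneous polynomial -/
lemma rho_hom (i : Fin 5) {F : MvPolynomial σ ℂ} {t : ℕ} (hF : F.IsHomogeneous t) :
    rho e i F = Polynomial.C (eval (pt e i) F) * Polynomial.X ^ t := by
  rw [rho, aeval_def, eval₂_eq', eval_eq', map_sum, Finset.sum_mul]
  refine Finset.sum_congr rfl fun d hd => ?_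
  have hdeg : ∑ s, d s = t := by
    have h1 := hF.degree_eq_sum_deg_support hd
    rw [h1]
    exact (Finset.sum_subset (Finset.subset_univ d.support)
      (fun s _ hs => by simpa using hs)).symm
  simp only [mul_pow, Finset.prod_mul_distrib, Finset.prod_pow_eq_pow_sum, hdeg, map_mul,
    map_prod, map_pow, Polynomial.algebraMap_eq]
  ring

lemma sum_eq_one_cases (u : σ →₀ ℕ) (h : ∑ s, u s = 1) : ∃ s, u = Finsupp.single s 1 := by
  have h1 : u.sum (fun _ n => n) = 1 := by
    rw [Finsupp.sum_fintype _ _ (by simp)]; exact h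
  exact (Finsupp.sum_eq_one_iff u).1 h1

/-- coefficient one -/
lemma rho_coeff_one (i : Fin 5) (G : MvPolynomial σ ℂ) :
    (rho e i G).coeff 1 = coeff (Finsupp.single (xi e 0) 1) G
      + cc i * coeff (Finsupp.single (xi e 1) 1) G := by
  induction G using MvPolynomial.induction_on' with
  | monomial u a =>
    rw [rho, aeval_monomial, Finsupp.prod_fintype _ _ (by simp)]
    simp only [mul_pow, Finset.prod_mul_distrib, Finset.prod_pow_eq_pow_sum,
      Polynomial.algebraMap_eq]
    rw [← mul_assoc]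
    have h1 : (Polynomial.C a * ∏ s, Polynomial.C (pt e i s) ^ u s)
        = Polynomial.C (a * ∏ s, pt e i s ^ u s) := by simp
    rw [h1, Polynomial.coeff_C_mul, Polynomial.coeff_X_pow, coeff_monomial, coeff_monomial]
    by_cases hu : ∑ s, u s = 1
    · obtain ⟨s, rfl⟩ := sum_eq_one_cases u hu
      rw [if_pos hu.symm, mul_one]
      have h2 : ∏ s', pt e i s' ^ (Finsupp.single s 1 : σ →₀ ℕ) s' = pt e i s := by
        rw [Finset.prod_eq_single s]
        · simp
        · intro b _ hb; rw [Finsupp.single_eq_of_ne hb]; simp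
        · simp
      rw [h2]
      have hsi : ∀ s', (Finsupp.single s 1 = (Finsupp.single s' 1 : σ →₀ ℕ)) ↔ s = s' := by
        intro s'
        rw [Finsupp.single_left_inj (by norm_num)]
      simp only [hsi]
      obtain ⟨t, rfl⟩ := e.surjective s
      rcases t with c | ⟨j, b⟩
      · change a * pt e i (xi e c) = (if xi e c = xi e 0 then a else 0)
          + cc i * (if xi e c = xi e 1 then a else 0)
        fin_cases c
        · have h3 : xi e 0 ≠ xi e 1 := fun h => by simpa using xi_inj e h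
          simp only [Fin.zero_eta, Fin.isValue, pt_x, mul_one, if_true, if_neg h3, mul_zero,
            add_zero]
        · have h3 : xi e 1 ≠ xi e 0 := fun h => by simpa using xi_inj e h
          simp only [Fin.mk_one, Fin.isValue, pt_y, if_neg h3, if_true, zero_add]
          ring
      · change a * pt e i (mi e j b) = (if mi e j b = xi e 0 then a else 0)
          + cc i * (if mi e j b = xi e 1 then a else 0)
        rw [if_neg (xi_ne_mi e 0 j b).symm, if_neg (xi_ne_mi e 1 j b).symm, pt_m]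
        ring
    · rw [if_neg (fun h => hu h.symm), mul_zero]
      have h2 : ∀ s', u ≠ Finsupp.single s' 1 := by
        rintro s' rfl
        apply hu
        rw [Finset.sum_eq_single s']
        · simp
        · intro b _ hb; rw [Finsupp.single_eq_of_ne hb]
        · simp
      rw [if_neg (h2 _), if_neg (h2 _)]
      ring
  | add p q hp hq =>
    rw [map_add, Polynomial.coeff_add, hp, hq, coeff_add, coeff_add]
    ring

/-- exponent vectors -/
noncomputable def ex (c : Fin 2) (i : Fin 5) (a : Fin k) : σ →₀ ℕ :=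
  Finsupp.single (xi e c) 1 + Finsupp.single (mi e i a) 2

lemma coeff_dd (c : Fin 2) (i : Fin 5) (a : Fin k) (F : MvPolynomial σ ℂ) :
    coeff (Finsupp.single (xi e c) 1) (pderiv (mi e i a) (pderiv (mi e i a) F))
      = 2 * coeff (ex e c i a) F := by
  rw [coeff_pderiv, coeff_pderiv]
  have h1 : (Finsupp.single (xi e c) 1 + Finsupp.single (mi e i a) 1
      + Finsupp.single (mi e i a) 1 : σ →₀ ℕ) = ex e c i a := by
    rw [add_assoc, ← Finsupp.single_add]; rfl
  rw [h1]
  have h2 : (Finsupp.single (xi e c) 1 : σ →₀ ℕ) (mi e i a) = 0 :=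
    Finsupp.single_eq_of_ne (xi_ne_mi e c i a).symm
  simp only [Finsupp.add_apply, h2, Finsupp.single_eq_same]
  push_cast
  ring

lemma pf_coeff (F : MvPolynomial σ ℂ) :
    pf e F = ∑ i, ∑ a, (2 * coeff (ex e 0 i a) F + cc i * (2 * coeff (ex e 1 i a) F)) := by
  rw [pf_apply]
  refine Finset.sum_congr rfl fun i _ => ?_
  rw [rho_coeff_one, lap_apply, coeff_sum, coeff_sum, Finset.mul_sum, ← Finset.sum_add_distrib]
  refine Finset.sum_congr rfl fun a _ => ?_
  rw [coeff_dd, coeff_dd]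

/-- the cubic form -/
noncomputable def fpoly : MvPolynomial σ ℂ :=
  ∑ i, ∑ a, (monomial (ex e 0 i a) (1 : ℂ) + monomial (ex e 1 i a) (cc i))

lemma degree_ex (c : Fin 2) (i : Fin 5) (a : Fin k) : (ex e c i a).degree = 3 := by
  rw [ex, map_add, Finsupp.degree_single, Finsupp.degree_single]

lemma fpoly_hom : (fpoly e).IsHomogeneous 3 := by
  refine IsHomogeneous.sum _ _ _ fun i _ => IsHomogeneous.sum _ _ _ fun a _ => ?_
  exact (isHomogeneous_monomial _ (degree_ex e 0 i a)).add
    (isHomogeneous_monomial _ (degree_ex e 1 i a))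

lemma prod_ex (c : Fin 2) (i : Fin 5) (a : Fin k) :
    ((ex e c i a).prod (fun _ n => (n.factorial : ℂ))) = 2 := by
  have hd : Disjoint (Finsupp.single (xi e c) 1 : σ →₀ ℕ).support
      (Finsupp.single (mi e i a) 2 : σ →₀ ℕ).support := by
    rw [Finsupp.support_single _ (by norm_num), Finsupp.support_single _ (by norm_num)]
    simpa using xi_ne_mi e c i a
  rw [ex, Finsupp.prod_add_index_of_disjoint hd]
  simp [Finsupp.prod_single_index]

/-- weighted coefficient functional -/
noncomputable def Lw (w : (σ →₀ ℕ) → ℂ) : MvPolynomial σ ℂ →ₗ[ℂ] ℂ :=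
  (basisMonomials σ ℂ).constr ℂ w

lemma Lw_apply (w : (σ →₀ ℕ) → ℂ) (g : MvPolynomial σ ℂ) :
    Lw w g = ∑ α ∈ g.support, coeff α g * w α := by
  rw [Lw, Module.Basis.constr_apply]
  rfl

lemma Lw_monomial (w : (σ →₀ ℕ) → ℂ) (α : σ →₀ ℕ) (c : ℂ) :
    Lw w (monomial α c) = c * w α := by
  have h1 : monomial α c = c • (basisMonomials σ ℂ α) := by
    rw [coe_basisMonomials, smul_monomial, smul_eq_mul, mul_one]
  rw [h1, map_smul, Lw, Module.Basis.constr_basis, smul_eq_mul]

/-- the apolarity pairing with the cubic form -/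
lemma Lw_fpoly : Lw (fun α => coeff α (fpoly e) * (α.prod (fun _ n => (n.factorial : ℂ))))
    = pf e := by
  apply (basisMonomials σ ℂ).ext
  intro β
  rw [coe_basisMonomials, Lw_monomial, pf_coeff, fpoly, one_mul, coeff_sum, Finset.sum_mul]
  refine Finset.sum_congr rfl fun i _ => ?_
  rw [coeff_sum, Finset.sum_mul]
  refine Finset.sum_congr rfl fun a _ => ?_
  rw [coeff_add, coeff_monomial, coeff_monomial, coeff_monomial, coeff_monomial, add_mul]
  congr 1
  · by_cases h : ex e 0 i a = β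
    · rw [if_pos h, if_pos h.symm, ← h, prod_ex]; ring
    · rw [if_neg h, if_neg (fun h' => h h'.symm)]; ring
  · by_cases h : ex e 1 i a = β
    · rw [if_pos h, if_pos h.symm, ← h, prod_ex]; ring
    · rw [if_neg h, if_neg (fun h' => h h'.symm)]; ring

/-- the apolarity sum of the frozen statement -/
lemma apolar_sum (g : MvPolynomial σ ℂ) (β : σ →₀ ℕ) :
    ∑ α ∈ g.support, g.coeff α * (fpoly e).coeff (α + β) *
      ((α + β).prod (fun _ k => (k.factorial : ℂ)) / β.prod (fun _ k => (k.factorial : ℂ)))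
      = (β.prod (fun _ k => (k.factorial : ℂ)))⁻¹ * pf e (monomial β 1 * g) := by
  have h1 : Lw (fun α => (fpoly e).coeff (α + β) *
      ((α + β).prod (fun _ k => (k.factorial : ℂ)) / β.prod (fun _ k => (k.factorial : ℂ))))
      = (β.prod (fun _ k => (k.factorial : ℂ)))⁻¹ •
        (pf e ∘ₗ LinearMap.mulLeft ℂ (monomial β (1 : ℂ))) := by
    apply (basisMonomials σ ℂ).ext
    intro α
    rw [coe_basisMonomials, Lw_monomial, LinearMap.smul_apply, LinearMap.comp_apply,
      LinearMap.mulLeft_apply, monomial_mul, ← Lw_fpoly, Lw_monomial, add_comm β α, smul_eq_mul]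
    ring
  have h2 := congrArg (fun L => L g) h1
  rw [LinearMap.smul_apply, LinearMap.comp_apply, LinearMap.mulLeft_apply, Lw_apply,
    smul_eq_mul] at h2
  rw [← h2]
  refine Finset.sum_congr rfl fun α _ => ?_
  ring

/-- the ideal of the scheme -/
noncomputable def idl : Ideal (MvPolynomial σ ℂ) where
  carrier := {F | ∀ i, rho e i F = 0 ∧ (∀ a, rho e i (pderiv (mi e i a) F) = 0) ∧
    rho e i (lap e i F) = 0}
  add_mem' := by
    intro F G hF hG i
    refine ⟨?_, ?_, ?_⟩
    · rw [map_add, (hF i).1, (hG i).1, add_zero]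
    · intro a
      rw [map_add, map_add, (hF i).2.1, (hG i).2.1, add_zero]
    · rw [map_add, map_add, (hF i).2.2, (hG i).2.2, add_zero]
  zero_mem' := by intro i; simp
  smul_mem' := by
    intro c F hF i
    refine ⟨?_, ?_, ?_⟩
    · rw [smul_eq_mul, map_mul, (hF i).1, mul_zero]
    · intro a
      rw [smul_eq_mul, Derivation.leibniz, map_add, smul_eq_mul, smul_eq_mul, map_mul, map_mul,
        (hF i).1, (hF i).2.1, mul_zero, zero_mul, add_zero]
    · have h1 : lap e i (c * F) = c * lap e i F + F * lap e i c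
          + 2 * ∑ a, pderiv (mi e i a) c * pderiv (mi e i a) F := by
        rw [lap_apply, lap_apply, lap_apply, Finset.mul_sum, Finset.mul_sum, Finset.mul_sum,
          ← Finset.sum_add_distrib, ← Finset.sum_add_distrib]
        refine Finset.sum_congr rfl fun a _ => ?_
        simp only [Derivation.leibniz, smul_eq_mul, map_add]
        ring
      rw [smul_eq_mul, h1, map_add, map_add, map_mul, map_mul, map_mul, (hF i).1, (hF i).2.2,
        map_sum, Finset.sum_eq_zero]
      · ring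
      · intro a _
        rw [map_mul, (hF i).2.1, mul_zero]

lemma mem_idl (F : MvPolynomial σ ℂ) : F ∈ idl e ↔ ∀ i, rho e i F = 0 ∧
    (∀ a, rho e i (pderiv (mi e i a) F) = 0) ∧ rho e i (lap e i F) = 0 := Iff.rfl

/-- `D` lowers the degree by `N` -/
def Low (D : MvPolynomial σ ℂ →ₗ[ℂ] MvPolynomial σ ℂ) (N : ℕ) : Prop :=
  ∀ (t : ℕ) (F : MvPolynomial σ ℂ), F.IsHomogeneous t →
    D F = 0 ∨ (N ≤ t ∧ (D F).IsHomogeneous (t - N))

lemma low_id : Low (LinearMap.id : MvPolynomial σ ℂ →ₗ[ℂ] MvPolynomial σ ℂ) 0 := by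
  intro t F hF
  right
  exact ⟨Nat.zero_le _, by simpa using hF⟩

lemma low_pderiv (s : σ) :
    Low ((pderiv s).toLinearMap : MvPolynomial σ ℂ →ₗ[ℂ] MvPolynomial σ ℂ) 1 := by
  intro t F hF
  rcases Nat.eq_zero_or_pos t with rfl | ht
  · left
    have h1 : F.totalDegree = 0 := (totalDegree_zero_iff_isHomogeneous σ).2 hF
    rw [totalDegree_eq_zero_iff_eq_C.1 h1]
    simp
  · right
    exact ⟨ht, hF.pderiv⟩

lemma low_comp {D D' : MvPolynomial σ ℂ →ₗ[ℂ] MvPolynomial σ ℂ} {N N' : ℕ} (h : Low D N)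
    (h' : Low D' N') : Low (D ∘ₗ D') (N + N') := by
  intro t F hF
  rcases h' t F hF with h1 | ⟨h1, h2⟩
  · left; rw [LinearMap.comp_apply, h1, map_zero]
  · rcases h _ _ h2 with h3 | ⟨h3, h4⟩
    · left; exact h3
    · right
      refine ⟨by omega, ?_⟩
      rw [LinearMap.comp_apply]
      have : t - (N + N') = t - N' - N := by omega
      rw [this]; exact h4

lemma low_sum {ι : Type*} (s : Finset ι) (D : ι → MvPolynomial σ ℂ →ₗ[ℂ] MvPolynomial σ ℂ) {N : ℕ}
    (h : ∀ i ∈ s, Low (D i) N) : Low (∑ i ∈ s, D i) N := by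
  intro t F hF
  by_cases ht : N ≤ t
  · right
    refine ⟨ht, ?_⟩
    rw [LinearMap.sum_apply]
    refine IsHomogeneous.sum _ _ _ fun i hi => ?_
    rcases h i hi t F hF with h1 | ⟨_, h1⟩
    · rw [h1]; exact isHomogeneous_zero _ _ _
    · exact h1
  · left
    rw [LinearMap.sum_apply]
    refine Finset.sum_eq_zero fun i hi => ?_
    rcases h i hi t F hF with h1 | ⟨h1, _⟩
    · exact h1
    · exact absurd h1 ht

lemma low_lap (i : Fin 5) : Low (lap e i) 2 :=
  low_sum _ _ fun _ _ => low_comp (low_pderiv _) (low_pderiv _)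

lemma low_rho {D : MvPolynomial σ ℂ →ₗ[ℂ] MvPolynomial σ ℂ} {N : ℕ} (h : Low D N) (i : Fin 5)
    {t : ℕ} {F : MvPolynomial σ ℂ} (hF : F.IsHomogeneous t) :
    Polynomial.X ^ N * rho e i (D F) = Polynomial.C (eval (pt e i) (D F)) * Polynomial.X ^ t := by
  rcases h t F hF with h1 | ⟨h1, h2⟩
  · rw [h1]; simp
  · rw [rho_hom e i h2, mul_left_comm, ← pow_add]
    congr 2
    omega

lemma low_rho_iff {D : MvPolynomial σ ℂ →ₗ[ℂ] MvPolynomial σ ℂ} {N : ℕ} (h : Low D N) (i : Fin 5)
    {t : ℕ} {F : MvPolynomial σ ℂ} (hF : F.IsHomogeneous t) :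
    rho e i (D F) = 0 ↔ eval (pt e i) (D F) = 0 := by
  have h1 := low_rho e h i hF
  constructor
  · intro h2
    rw [h2, mul_zero] at h1
    have h3 := congrArg (fun p => Polynomial.coeff p t) h1
    simpa using h3.symm
  · intro h2
    rw [h2] at h1
    simpa using h1

lemma low_component {D : MvPolynomial σ ℂ →ₗ[ℂ] MvPolynomial σ ℂ} {N : ℕ} (h : Low D N)
    (i : Fin 5) {F : MvPolynomial σ ℂ} (hF : rho e i (D F) = 0) (t : ℕ) :
    rho e i (D (homogeneousComponent t F)) = 0 := by
  by_cases ht : t ≤ F.totalDegree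
  · rw [low_rho_iff e h i (homogeneousComponent_isHomogeneous t F)]
    have h1 : Polynomial.X ^ N * rho e i (D F) = ∑ j ∈ Finset.range (F.totalDegree + 1),
        Polynomial.C (eval (pt e i) (D (homogeneousComponent j F))) * Polynomial.X ^ j := by
      conv_lhs => rw [← sum_homogeneousComponent F]
      rw [map_sum, map_sum, Finset.mul_sum]
      exact Finset.sum_congr rfl fun j _ =>
        low_rho e h i (homogeneousComponent_isHomogeneous j F)
    rw [hF, mul_zero] at h1
    have h2 := congrArg (fun p => Polynomial.coeff p t) h1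
    simp only [Polynomial.coeff_zero, Polynomial.finsetSum_coeff, Polynomial.coeff_C_mul,
      Polynomial.coeff_X_pow, mul_ite, mul_one, mul_zero] at h2
    rw [Finset.sum_ite_eq] at h2
    rw [if_pos (by simpa using Nat.lt_succ_of_le ht)] at h2
    exact h2.symm
  · rw [homogeneousComponent_eq_zero _ _ (by omega)]
    simp

lemma idl_iff (F : MvPolynomial σ ℂ) : F ∈ idl e ↔ ∀ i,
    rho e i ((LinearMap.id : MvPolynomial σ ℂ →ₗ[ℂ] MvPolynomial σ ℂ) F) = 0 ∧
    (∀ a, rho e i ((pderiv (mi e i a)).toLinearMap F) = 0) ∧ rho e i (lap e i F) = 0 := Iff.rfl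

lemma idl_hom_iff {t : ℕ} {F : MvPolynomial σ ℂ} (hF : F.IsHomogeneous t) : F ∈ idl e ↔ ∀ i,
    eval (pt e i) F = 0 ∧ (∀ a, eval (pt e i) (pderiv (mi e i a) F) = 0) ∧
    eval (pt e i) (lap e i F) = 0 := by
  rw [idl_iff]
  refine forall_congr' fun i => ?_
  rw [low_rho_iff e low_id i hF, low_rho_iff e (low_lap e i) i hF]
  refine and_congr Iff.rfl (and_congr (forall_congr' fun a => ?_) Iff.rfl)
  rw [low_rho_iff e (low_pderiv _) i hF]
  rfl

lemma lap_X_mul (i : Fin 5) (N : ℕ) (g : MvPolynomial σ ℂ) :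
    lap e i (X (xi e 0) ^ N * g) = X (xi e 0) ^ N * lap e i g := by
  rw [lap_apply, lap_apply, Finset.mul_sum]
  refine Finset.sum_congr rfl fun a _ => ?_
  have h1 : pderiv (mi e i a) ((X (xi e 0) : MvPolynomial σ ℂ) ^ N) = 0 := by
    rw [Derivation.leibniz_pow, pderiv_X_of_ne (xi_ne_mi e 0 i a)]
    simp
  have h2 : ∀ G : MvPolynomial σ ℂ, pderiv (mi e i a) (X (xi e 0) ^ N * G)
      = X (xi e 0) ^ N * pderiv (mi e i a) G := by
    intro G
    rw [Derivation.leibniz, h1, smul_zero, add_zero, smul_eq_mul]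
  rw [h2, h2]

lemma idl_sat : Sat (idl e) := by
  constructor
  · intro g hg t
    rw [idl_iff] at hg ⊢
    intro i
    exact ⟨low_component e low_id i (hg i).1 t,
      fun a => low_component e (low_pderiv _) i ((hg i).2.1 a) t,
      low_component e (low_lap e i) i (hg i).2.2 t⟩
  · rintro g ⟨N, hN⟩
    have h0 := (mem_idl e _).1 (hN (xi e 0))
    rw [mem_idl]
    intro i
    have hrX : rho e i (X (xi e 0) ^ N) = Polynomial.X ^ N := by
      simp [rho]
    have hne : (Polynomial.X ^ N : Polynomial ℂ) ≠ 0 := pow_ne_zero _ Polynomial.X_ne_zero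
    refine ⟨?_, ?_, ?_⟩
    · have h1 := (h0 i).1
      rw [map_mul, hrX] at h1
      exact (mul_eq_zero.1 h1).resolve_left hne
    · intro a
      have h1 := (h0 i).2.1 a
      have h2 : pderiv (mi e i a) ((X (xi e 0) : MvPolynomial σ ℂ) ^ N) = 0 := by
        rw [Derivation.leibniz_pow, pderiv_X_of_ne (xi_ne_mi e 0 i a)]
        simp
      rw [Derivation.leibniz, h2, smul_zero, add_zero, smul_eq_mul, map_mul, hrX] at h1
      exact (mul_eq_zero.1 h1).resolve_left hne
    · have h1 := (h0 i).2.2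
      rw [lap_X_mul, map_mul, hrX] at h1
      exact (mul_eq_zero.1 h1).resolve_left hne

lemma idl_apolar (g : MvPolynomial σ ℂ) (hg : g ∈ idl e) : pf e g = 0 := by
  rw [pf_apply]
  refine Finset.sum_eq_zero fun i _ => ?_
  rw [((mem_idl e g).1 hg i).2.2, Polynomial.coeff_zero]

/-- evaluation map in degree `t` -/
noncomputable def Ev : MvPolynomial σ ℂ →ₗ[ℂ]
    ((Fin 5 → ℂ) × (Fin 5 → Fin k → ℂ) × (Fin 5 → ℂ)) :=
  (LinearMap.pi fun i => (aeval (pt e i) : MvPolynomial σ ℂ →ₐ[ℂ] ℂ).toLinearMap).prod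
    ((LinearMap.pi fun i => LinearMap.pi fun a =>
      (aeval (pt e i) : MvPolynomial σ ℂ →ₐ[ℂ] ℂ).toLinearMap ∘ₗ (pderiv (mi e i a)).toLinearMap).prod
    (LinearMap.pi fun i => (aeval (pt e i) : MvPolynomial σ ℂ →ₐ[ℂ] ℂ).toLinearMap ∘ₗ lap e i))

lemma Ev_apply (F : MvPolynomial σ ℂ) : Ev e F = (fun i => eval (pt e i) F,
    fun i a => eval (pt e i) (pderiv (mi e i a) F), fun i => eval (pt e i) (lap e i F)) := rfl

noncomputable def EvS (t : ℕ) : homogeneousSubmodule σ ℂ t →ₗ[ℂ]
    ((Fin 5 → ℂ) × (Fin 5 → Fin k → ℂ) × (Fin 5 → ℂ)) :=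
  (Ev e).domRestrict (homogeneousSubmodule σ ℂ t)

lemma ker_EvS (t : ℕ) : LinearMap.ker (EvS e t) =
    Submodule.comap (homogeneousSubmodule σ ℂ t).subtype ((idl e).restrictScalars ℂ) := by
  ext ⟨F, hF⟩
  rw [LinearMap.mem_ker, Submodule.mem_comap]
  change Ev e F = 0 ↔ F ∈ idl e
  rw [idl_hom_iff e hF, Ev_apply]
  simp only [Prod.mk_eq_zero, funext_iff, Pi.zero_apply]
  constructor
  · rintro ⟨h1, h2, h3⟩ i
    exact ⟨h1 i, h2 i, h3 i⟩
  · intro h
    exact ⟨fun i => (h i).1, fun i => (h i).2.1, fun i => (h i).2.2⟩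

lemma hilb_eq (t : ℕ) : finrank ℂ (homogeneousSubmodule σ ℂ t) -
    finrank ℂ ((idl e).restrictScalars ℂ ⊓ homogeneousSubmodule σ ℂ t :
      Submodule ℂ (MvPolynomial σ ℂ)) = finrank ℂ (LinearMap.range (EvS e t)) := by
  have h1 := LinearMap.finrank_range_add_finrank_ker (EvS e t)
  rw [ker_EvS, finrank_comap] at h1
  omega

lemma finrank_target : finrank ℂ ((Fin 5 → ℂ) × (Fin 5 → Fin k → ℂ) × (Fin 5 → ℂ))
    = 5 * k + 10 := by
  rw [Module.finrank_prod, Module.finrank_prod]
  simp [Module.finrank_pi_fintype]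
  ring

/-- the coefficients of the linear relation between the five points -/
noncomputable def kap : Fin 5 → ℂ := ![1, -4, 6, -4, 1]

lemma kap_sum (n : ℕ) (hn : n ≤ 3) : ∑ i, kap i * cc i ^ n = 0 := by
  simp only [Fin.sum_univ_five, kap, cc]
  interval_cases n <;> simp <;> norm_num

lemma kap_hom {F : MvPolynomial σ ℂ} (hF : F.IsHomogeneous 3) :
    ∑ i, kap i * eval (pt e i) F = 0 := by
  simp only [eval_eq', Finset.mul_sum]
  rw [Finset.sum_comm]
  refine Finset.sum_eq_zero fun d hd => ?_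
  have hdeg : ∑ s, d s = 3 := by
    have h1 := hF.degree_eq_sum_deg_support hd
    rw [h1]
    exact (Finset.sum_subset (Finset.subset_univ d.support)
      (fun s _ hs => by simpa using hs)).symm
  have hy : d (xi e 1) ≤ 3 := by
    rw [← hdeg]
    exact Finset.single_le_sum (f := fun s => d s) (fun _ _ => Nat.zero_le _) (Finset.mem_univ _)
  have hprod : ∀ i, ∏ s, pt e i s ^ d s = cc i ^ d (xi e 1) *
      ∏ p : Fin 5 × Fin k, (0 : ℂ) ^ d (mi e p.1 p.2) := by
    intro i
    rw [← e.prod_comp, Fintype.prod_sum_type, Fin.prod_univ_two]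
    change (pt e i (xi e 0)) ^ _ * (pt e i (xi e 1)) ^ _ *
      ∏ p : Fin 5 × Fin k, (pt e i (mi e p.1 p.2)) ^ _ = _
    rw [pt_x, pt_y, one_pow, one_mul]
    congr 1
    exact Finset.prod_congr rfl fun p _ => by rw [pt_m]; rfl
  simp only [hprod]
  have h2 : ∀ i, kap i * (coeff d F * (cc i ^ d (xi e 1) *
      ∏ p : Fin 5 × Fin k, (0 : ℂ) ^ d (mi e p.1 p.2)))
      = (coeff d F * ∏ p : Fin 5 × Fin k, (0 : ℂ) ^ d (mi e p.1 p.2)) *
        (kap i * cc i ^ d (xi e 1)) := by
    intro i; ring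
  simp only [h2]
  rw [← Finset.mul_sum, kap_sum _ hy, mul_zero]

lemma hilb_three : finrank ℂ (homogeneousSubmodule σ ℂ 3) -
    finrank ℂ ((idl e).restrictScalars ℂ ⊓ homogeneousSubmodule σ ℂ 3 :
      Submodule ℂ (MvPolynomial σ ℂ)) ≠ 5 * k + 10 := by
  rw [hilb_eq]
  intro h
  have h1 : LinearMap.range (EvS e 3) = ⊤ := by
    apply Submodule.eq_top_of_finrank_eq
    rw [h, finrank_target]
  obtain ⟨⟨F, hF⟩, h2⟩ := (LinearMap.range_eq_top.1 h1) (Pi.single 0 1, 0, 0)
  have h3 : ∀ i, eval (pt e i) F = (Pi.single (0 : Fin 5) (1 : ℂ) : Fin 5 → ℂ) i := by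
    intro i
    have : (Ev e F).1 i = (Pi.single (0 : Fin 5) (1 : ℂ) : Fin 5 → ℂ) i := by
      change Ev e F = _ at h2
      rw [h2]
    exact this
  have h4 := kap_hom e hF
  simp only [h3] at h4
  simp [kap, Fin.sum_univ_five] at h4

/-- product of the four other forms -/
noncomputable def PP (i : Fin 5) : MvPolynomial σ ℂ :=
  ∏ j ∈ Finset.univ.erase i, (X (xi e 1) - C (cc j) * X (xi e 0))

lemma PP_hom (i : Fin 5) : (PP e i).IsHomogeneous 4 := by
  have h := IsHomogeneous.prod (Finset.univ.erase i)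
    (fun j : Fin 5 => (X (xi e 1) - C (cc j) * X (xi e 0) : MvPolynomial σ ℂ)) (fun _ => 1)
    (fun j _ => (isHomogeneous_X _ _).sub (isHomogeneous_C_mul_X _ _))
  simpa [PP] using h

lemma eval_PP (i j : Fin 5) : eval (pt e j) (PP e i) = ∏ l ∈ Finset.univ.erase i, (cc j - cc l) := by
  simp [PP]

lemma eval_PP_ne {i j : Fin 5} (h : i ≠ j) : eval (pt e j) (PP e i) = 0 := by
  rw [eval_PP]
  exact Finset.prod_eq_zero (Finset.mem_erase.2 ⟨h.symm, Finset.mem_univ _⟩) (sub_self _)

lemma eval_PP_self (i : Fin 5) : eval (pt e i) (PP e i) ≠ 0 := by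
  rw [eval_PP]
  refine Finset.prod_ne_zero_iff.2 fun l hl => ?_
  exact sub_ne_zero.2 fun h => (Finset.ne_of_mem_erase hl) (cc_inj h).symm

lemma pderiv_PP (i j : Fin 5) (a : Fin k) : pderiv (mi e j a) (PP e i) = 0 := by
  have h : ∀ s : Finset (Fin 5), pderiv (mi e j a)
      (∏ l ∈ s, (X (xi e 1) - C (cc l) * X (xi e 0) : MvPolynomial σ ℂ)) = 0 := by
    intro s
    induction s using Finset.induction_on with
    | empty => simp
    | insert l s hl ih =>
      rw [Finset.prod_insert hl, Derivation.leibniz, ih, map_sub, Derivation.leibniz, pderiv_C,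
        pderiv_X_of_ne (xi_ne_mi e 0 j a), pderiv_X_of_ne (xi_ne_mi e 1 j a)]
      simp
  exact h _

/-- base polynomial -/
noncomputable def BB (i : Fin 5) (N : ℕ) : MvPolynomial σ ℂ := X (xi e 0) ^ N * PP e i

lemma BB_hom (i : Fin 5) (N : ℕ) : (BB e i N).IsHomogeneous (N + 4) :=
  (isHomogeneous_X_pow _ _).mul (PP_hom e i)

lemma eval_BB (i j : Fin 5) (N : ℕ) : eval (pt e j) (BB e i N) = eval (pt e j) (PP e i) := by
  simp [BB]

lemma pderiv_BB (i j : Fin 5) (a : Fin k) (N : ℕ) : pderiv (mi e j a) (BB e i N) = 0 := by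
  rw [BB, Derivation.leibniz, pderiv_PP, Derivation.leibniz_pow,
    pderiv_X_of_ne (xi_ne_mi e 0 j a)]
  simp

lemma pderiv_BB_mul (i j : Fin 5) (a : Fin k) (N : ℕ) (G : MvPolynomial σ ℂ) :
    pderiv (mi e j a) (BB e i N * G) = BB e i N * pderiv (mi e j a) G := by
  rw [Derivation.leibniz, pderiv_BB, smul_zero, add_zero, smul_eq_mul]

lemma lap_BB_mul (i j : Fin 5) (N : ℕ) (G : MvPolynomial σ ℂ) :
    lap e j (BB e i N * G) = BB e i N * lap e j G := by
  rw [lap_apply, lap_apply, Finset.mul_sum]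
  exact Finset.sum_congr rfl fun a _ => by rw [pderiv_BB_mul, pderiv_BB_mul]

lemma lap_zero_of (j : Fin 5) (G : MvPolynomial σ ℂ) (c : Fin k → ℂ)
    (h : ∀ a, pderiv (mi e j a) G = C (c a)) : lap e j G = 0 := by
  rw [lap_apply]
  refine Finset.sum_eq_zero fun a _ => ?_
  rw [h, pderiv_C]

lemma pderiv_mX (i j : Fin 5) (a b : Fin k) :
    pderiv (mi e j b) (X (mi e i a) : MvPolynomial σ ℂ) = C (if i = j ∧ a = b then 1 else 0) := by
  by_cases h : i = j ∧ a = b
  · rw [if_pos h, h.1, h.2, pderiv_X_self, C_1]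
  · rw [if_neg h, C_0, pderiv_X_of_ne]
    rwa [Ne, mi_eq_iff]

/-- surjectivity in large degree -/
lemma EvS_surj (hk : 0 < k) (t : ℕ) (ht : 6 ≤ t) : LinearMap.range (EvS e t) = ⊤ := by
  classical
  have hmem : ∀ F : MvPolynomial σ ℂ, F.IsHomogeneous t → Ev e F ∈ LinearMap.range (EvS e t) :=
    fun F hF => ⟨⟨F, hF⟩, rfl⟩
  obtain ⟨N, rfl⟩ : ∃ N, t = N + 6 := ⟨t - 6, by omega⟩
  -- three families
  have hA : ∀ i, ((Pi.single i 1 : Fin 5 → ℂ), (0 : Fin 5 → Fin k → ℂ), (0 : Fin 5 → ℂ))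
      ∈ LinearMap.range (EvS e (N + 6)) := by
    intro i
    have h1 := hmem (BB e i (N + 2)) (by simpa using BB_hom e i (N + 2))
    have h2 : Ev e (BB e i (N + 2)) = (eval (pt e i) (PP e i)) •
        ((Pi.single i 1 : Fin 5 → ℂ), (0 : Fin 5 → Fin k → ℂ), (0 : Fin 5 → ℂ)) := by
      rw [Ev_apply]
      refine Prod.ext ?_ (Prod.ext ?_ ?_)
      · ext j
        by_cases hij : i = j
        · subst hij; simp [eval_BB]
        · simp [eval_BB, eval_PP_ne e hij, Ne.symm hij]
      · ext j a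
        simp [pderiv_BB]
      · ext j
        have : lap e j (BB e i (N + 2)) = 0 :=
          lap_zero_of e j _ (fun _ => 0) (fun a => by rw [pderiv_BB, C_0])
        simp [this]
    rw [h2] at h1
    exact (Submodule.smul_mem_iff _ (eval_PP_self e i)).1 h1
  have hB : ∀ i a, ((0 : Fin 5 → ℂ), (Pi.single i (Pi.single a 1) : Fin 5 → Fin k → ℂ),
      (0 : Fin 5 → ℂ)) ∈ LinearMap.range (EvS e (N + 6)) := by
    intro i a
    have h1 := hmem (BB e i (N + 1) * X (mi e i a)) (by
      have := (BB_hom e i (N + 1)).mul (isHomogeneous_X ℂ (mi e i a))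
      simpa using this)
    have h2 : Ev e (BB e i (N + 1) * X (mi e i a)) = (eval (pt e i) (PP e i)) •
        ((0 : Fin 5 → ℂ), (Pi.single i (Pi.single a 1) : Fin 5 → Fin k → ℂ),
          (0 : Fin 5 → ℂ)) := by
      rw [Ev_apply]
      refine Prod.ext ?_ (Prod.ext ?_ ?_)
      · ext j; simp
      · ext j b
        change eval (pt e j) (pderiv (mi e j b) (BB e i (N + 1) * X (mi e i a))) = _
        rw [pderiv_BB_mul, pderiv_mX]
        by_cases hij : i = j
        · subst hij
          by_cases hab : a = b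
          · subst hab; simp [eval_BB]
          · simp [hab, Ne.symm hab]
        · simp [hij, Ne.symm hij]
      · ext j
        have : lap e j (X (mi e i a) : MvPolynomial σ ℂ) = 0 :=
          lap_zero_of e j _ (fun b => if i = j ∧ a = b then 1 else 0)
            (fun b => pderiv_mX e i j a b)
        change eval (pt e j) (lap e j (BB e i (N + 1) * X (mi e i a))) = _
        rw [lap_BB_mul, this]; simp
    rw [h2] at h1
    exact (Submodule.smul_mem_iff _ (eval_PP_self e i)).1 h1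
  have hC : ∀ i, ((0 : Fin 5 → ℂ), (0 : Fin 5 → Fin k → ℂ), (Pi.single i 1 : Fin 5 → ℂ))
      ∈ LinearMap.range (EvS e (N + 6)) := by
    intro i
    let a0 : Fin k := ⟨0, hk⟩
    have h1 := hmem (BB e i N * (X (mi e i a0) * X (mi e i a0))) (by
      have := (BB_hom e i N).mul ((isHomogeneous_X ℂ (mi e i a0)).mul
        (isHomogeneous_X ℂ (mi e i a0)))
      simpa using this)
    have h2 : Ev e (BB e i N * (X (mi e i a0) * X (mi e i a0)))
        = (2 * eval (pt e i) (PP e i)) •
        ((0 : Fin 5 → ℂ), (0 : Fin 5 → Fin k → ℂ), (Pi.single i 1 : Fin 5 → ℂ)) := by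
      rw [Ev_apply]
      refine Prod.ext ?_ (Prod.ext ?_ ?_)
      · ext j; simp
      · ext j b
        change eval (pt e j) (pderiv (mi e j b) (BB e i N * (X (mi e i a0) * X (mi e i a0)))) = _
        rw [pderiv_BB_mul, Derivation.leibniz]
        simp
      · ext j
        have h3 : lap e j (X (mi e i a0) * X (mi e i a0) : MvPolynomial σ ℂ)
            = C (if i = j then 2 else 0) := by
          rw [lap_apply]
          have h4 : ∀ b, pderiv (mi e j b) (pderiv (mi e j b)
              (X (mi e i a0) * X (mi e i a0) : MvPolynomial σ ℂ))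
              = C (2 * (if i = j ∧ a0 = b then 1 else 0)) := by
            intro b
            simp only [Derivation.leibniz, smul_eq_mul, map_add, pderiv_mX, pderiv_C, C_mul,
              mul_zero]
            by_cases h : i = j ∧ a0 = b
            · simp only [if_pos h, C_1, mul_one, zero_add]
              rw [← C_1, ← C_add]; norm_num
            · simp [if_neg h]
          simp only [h4]
          rw [← map_sum]
          congr 1
          by_cases hij : i = j
          · simp [hij]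
          · simp [hij]
        change eval (pt e j) (lap e j (BB e i N * (X (mi e i a0) * X (mi e i a0)))) = _
        rw [lap_BB_mul, h3]
        by_cases hij : i = j
        · subst hij; simp [eval_BB]; ring
        · simp [hij, Ne.symm hij]
    rw [h2] at h1
    exact (Submodule.smul_mem_iff _ (mul_ne_zero two_ne_zero (eval_PP_self e i))).1 h1
  rw [eq_top_iff]
  rintro ⟨u, v, w⟩ -
  have hdec : ((u, v, w) : (Fin 5 → ℂ) × (Fin 5 → Fin k → ℂ) × (Fin 5 → ℂ))
      = ∑ i, u i • ((Pi.single i 1 : Fin 5 → ℂ), (0 : Fin 5 → Fin k → ℂ), (0 : Fin 5 → ℂ))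
      + (∑ i, ∑ a, v i a • ((0 : Fin 5 → ℂ), (Pi.single i (Pi.single a 1) : Fin 5 → Fin k → ℂ),
      (0 : Fin 5 → ℂ)) + ∑ i, w i • ((0 : Fin 5 → ℂ), (0 : Fin 5 → Fin k → ℂ),
        (Pi.single i 1 : Fin 5 → ℂ))) := by
    refine Prod.ext ?_ (Prod.ext ?_ ?_)
    · ext j
      simp [Prod.fst_sum, Finset.sum_apply, Pi.single_apply]
    · ext j b
      simp [Prod.fst_sum, Prod.snd_sum, Finset.sum_apply, Pi.single_apply]
    · ext j
      simp [Prod.snd_sum, Finset.sum_apply, Pi.single_apply]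
  rw [hdec]
  refine Submodule.add_mem _ (Submodule.sum_mem _ fun i _ => Submodule.smul_mem _ _ (hA i))
    (Submodule.add_mem _ (Submodule.sum_mem _ fun i _ => Submodule.sum_mem _ fun a _ =>
      Submodule.smul_mem _ _ (hB i a)) (Submodule.sum_mem _ fun i _ =>
        Submodule.smul_mem _ _ (hC i)))

end Pool.Agent.H75.Apolar
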